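import Mathlib
import Pool.Agent.H66.EvoAlg

open Module

namespace Pool.Agent.Results.MP_fa30b9_al.NonNilpotentClassification

/-- A (not necessarily associative) complex algebra with underlying vector space `V` is given by
its product, a bilinear map. -/
abbrev Prd (V : Type) [AddCommGroup V] [Module ℂ V] : Type := V →ₗ[ℂ] V →ₗ[ℂ] V

section Defs

variable {V W : Type} [AddCommGroup V] [Module ℂ V] [AddCommGroup W] [Module ℂ W]

/-- `b` is a natural basis of the algebra `(V, μ)`. -/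
def NatBasis (μ : Prd V) {n : ℕ} (b : Basis (Fin n) ℂ V) : Prop :=
  ∀ i j, i ≠ j → μ (b i) (b j) = 0

/-- `(V, μ)` is a (finite-dimensional) evolution algebra: it has a natural basis. -/
def IsEvolution (μ : Prd V) : Prop :=
  ∃ (n : ℕ) (b : Basis (Fin n) ℂ V), NatBasis μ b

/-- `F` is a subalgebra: a linear subspace closed under the product. -/
def IsSubalgebra (μ : Prd V) (F : Submodule ℂ V) : Prop :=
  ∀ x ∈ F, ∀ y ∈ F, μ x y ∈ F

/-- `F` has a natural basis that extends to a natural basis of `V`: it is spanned by a part of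
a natural basis of `V`. -/
def IsEvolutionSub (μ : Prd V) (F : Submodule ℂ V) : Prop :=
  ∃ (n : ℕ) (b : Basis (Fin n) ℂ V) (S : Set (Fin n)),
    NatBasis μ b ∧ F = Submodule.span ℂ (b '' S)

/-- Condition `P`: every subalgebra is an evolution subalgebra. -/
def CondP (μ : Prd V) : Prop :=
  ∀ F : Submodule ℂ V, IsSubalgebra μ F → IsEvolutionSub μ F

/-- The powers `E^1 = E`, `E^k = ∑_{i=1}^{k-1} E^i E^{k-i}` (`k ≥ 2`); the value at `0` is
not used. -/
def power (μ : Prd V) : ℕ → Submodule ℂ V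
  | 0 => ⊤
  | 1 => ⊤
  | (k + 2) => ⨆ i : Fin (k + 1), Submodule.map₂ μ (power μ (i + 1)) (power μ (k + 1 - i))
decreasing_by all_goals omega

/-- `E` is nilpotent: `E^m = 0` for some `m ≥ 1`. -/
def IsNilpotent (μ : Prd V) : Prop := ∃ m, 1 ≤ m ∧ power μ m = ⊥

/-- The index of nilpotency: the least `m ≥ 1` with `E^m = 0`. -/
noncomputable def index (μ : Prd V) : ℕ := sInf {m | 1 ≤ m ∧ power μ m = ⊥}

/-- The class `ZN^s`: the `s`-dimensional nilpotent evolution algebras whose index of nilpotency is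
the largest possible among `s`-dimensional nilpotent evolution algebras. -/
def ZN (s : ℕ) (μ : Prd V) : Prop :=
  finrank ℂ V = s ∧ IsEvolution μ ∧ IsNilpotent μ ∧
    ∀ (U : Type) [AddCommGroup U] [Module ℂ U] (ν : Prd U), finrank ℂ U = s → IsEvolution ν →
      IsNilpotent ν → index ν ≤ index μ

/-- Isomorphism of algebras. -/
def Iso (μ : Prd V) (ν : Prd W) : Prop :=
  ∃ f : V ≃ₗ[ℂ] W, ∀ x y, f (μ x y) = ν (f x) (f y)

/-- The direct sum of two algebras, with the componentwise product. -/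
def dsum (μ : Prd V) (ν : Prd W) : Prd (V × W) :=
  LinearMap.mk₂ ℂ (fun x y => (μ x.1 y.1, ν x.2 y.2))
    (by intro x y z; simp) (by intro c x y; simp) (by intro x y z; simp) (by intro c x y; simp)

end Defs

/-- `ES_1`: the one-dimensional algebra `ℂ e` with `e e = e`. -/
def ES1 : Prd ℂ := LinearMap.mul ℂ ℂ

/-- `ℂ^m` with zero product. -/
def Zero (m : ℕ) : Prd (Fin m → ℂ) := 0

variable {V W : Type} [AddCommGroup V] [Module ℂ V] [AddCommGroup W] [Module ℂ W]

theorem NatBasis.mul_eq {μ : Prd V} {n : ℕ} {b : Basis (Fin n) ℂ V} (hb : NatBasis μ b)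
    (x y : V) : μ x y = ∑ i, (b.repr x i * b.repr y i) • μ (b i) (b i) := by
  conv_lhs => rw [← b.sum_repr x, LinearMap.map_sum₂]
  refine Finset.sum_congr rfl fun i _ => ?_
  conv_lhs => rw [← b.sum_repr y]
  rw [map_smul, LinearMap.smul_apply, map_sum, Finset.sum_eq_single i]
  · rw [map_smul, smul_smul]
  · intro j _ hj
    rw [map_smul, hb i j hj.symm, smul_zero]
  · intro h
    exact absurd (Finset.mem_univ i) h

theorem NatBasis.comm {μ : Prd V} {n : ℕ} {b : Basis (Fin n) ℂ V} (hb : NatBasis μ b)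
    (x y : V) : μ x y = μ y x := by
  rw [hb.mul_eq x y, hb.mul_eq y x]
  simp_rw [mul_comm]

theorem NatBasis.left {μ : Prd V} {n : ℕ} {b : Basis (Fin n) ℂ V} (hb : NatBasis μ b)
    (i : Fin n) (y : V) : μ (b i) y = b.repr y i • μ (b i) (b i) := by
  rw [hb.mul_eq (b i) y, Finset.sum_eq_single i]
  · simp
  · intro j _ hj
    rw [b.repr_self, Finsupp.single_eq_of_ne hj, zero_mul, zero_smul]
  · intro h
    exact absurd (Finset.mem_univ i) h

theorem expand (μ : Prd V) (a b : ℂ) (x y z w : V) :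
    μ (a • x + z) (b • y + w) = (a * b) • μ x y + a • μ x w + b • μ z y + μ z w := by
  simp only [map_add, map_smul, LinearMap.add_apply, LinearMap.smul_apply]
  module

def IsIdeal (μ : Prd V) (Z : Submodule ℂ V) : Prop := ∀ z ∈ Z, ∀ y, μ z y ∈ Z

/-- core use of condition P -/
theorem exists_nat {μ : Prd V} (hP : CondP μ) {F G : Submodule ℂ V} (hF : IsSubalgebra μ F)
    {x : V} (hx : x ∈ F) (hxG : x ∉ G) :
    ∃ (n : ℕ) (b : Basis (Fin n) ℂ V) (i : Fin n), NatBasis μ b ∧ b i ∈ F ∧ b i ∉ G := by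
  obtain ⟨n, b, S, hb, hS⟩ := hP F hF
  by_contra hcon
  push Not at hcon
  apply hxG
  have : F ≤ G := by
    rw [hS, Submodule.span_le]
    rintro _ ⟨i, hi, rfl⟩
    exact hcon n b i hb (by rw [hS]; exact Submodule.subset_span ⟨i, hi, rfl⟩)
  exact this hx

theorem p_one {μ : Prd V} (hP : CondP μ) (hc : ∀ x y, μ x y = μ y x)
    {Z : Submodule ℂ V} (hZ : IsIdeal μ Z) {x : V} (hx : μ x x ∈ Z) (y : V) : μ x y ∈ Z := by
  by_cases hxZ : x ∈ Z
  · exact hZ x hxZ y
  have hF : IsSubalgebra μ (Submodule.span ℂ {x} ⊔ Z) := by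
    intro a ha b hb
    obtain ⟨a1, ha1, a2, ha2, rfl⟩ := Submodule.mem_sup.1 ha
    obtain ⟨b1, hb1, b2, hb2, rfl⟩ := Submodule.mem_sup.1 hb
    obtain ⟨α, rfl⟩ := Submodule.mem_span_singleton.1 ha1
    obtain ⟨β, rfl⟩ := Submodule.mem_span_singleton.1 hb1
    apply Submodule.mem_sup_right
    rw [expand]
    refine Submodule.add_mem _ (Submodule.add_mem _ (Submodule.add_mem _ ?_ ?_) ?_) ?_
    · exact Submodule.smul_mem _ _ hx
    · rw [hc x b2]
      exact Submodule.smul_mem _ _ (hZ _ hb2 _)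
    · exact Submodule.smul_mem _ _ (hZ _ ha2 _)
    · exact hZ _ ha2 _
  obtain ⟨n, b, i, hb, hbF, hbG⟩ := exists_nat hP hF
    (Submodule.mem_sup_left (Submodule.mem_span_singleton_self x)) hxZ
  obtain ⟨a1, ha1, z, hz, hbi⟩ := Submodule.mem_sup.1 hbF
  obtain ⟨α, rfl⟩ := Submodule.mem_span_singleton.1 ha1
  have hα : α ≠ 0 := by
    rintro rfl
    rw [zero_smul, zero_add] at hbi
    exact hbG (hbi ▸ hz)
  have h1 : μ (b i) (b i) ∈ Z := by
    rw [← hbi]
    rw [expand]
    refine Submodule.add_mem _ (Submodule.add_mem _ (Submodule.add_mem _ ?_ ?_) ?_) ?_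
    · exact Submodule.smul_mem _ _ hx
    · rw [hc x z]
      exact Submodule.smul_mem _ _ (hZ _ hz _)
    · exact Submodule.smul_mem _ _ (hZ _ hz _)
    · exact hZ _ hz _
  have h2 : μ (b i) y ∈ Z := by
    rw [hb.left]
    exact Submodule.smul_mem _ _ h1
  have h3 : μ x y = α⁻¹ • (μ (b i) y - μ z y) := by
    rw [← hbi]
    simp only [map_add, map_smul, LinearMap.add_apply, LinearMap.smul_apply, add_sub_cancel_right]
    rw [smul_smul, inv_mul_cancel₀ hα, one_smul]
  rw [h3]
  exact Submodule.smul_mem _ _ (Submodule.sub_mem _ h2 (hZ _ hz _))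

theorem exists_sq (c : ℂ) : ∃ d : ℂ, d * d = c := by
  obtain ⟨d, hd⟩ := IsAlgClosed.exists_pow_nat_eq c (n := 2) (by norm_num)
  exact ⟨d, by rw [← hd, sq]⟩

theorem p_two {μ : Prd V} (hP : CondP μ) {Z : Submodule ℂ V} (hZ : IsIdeal μ Z)
    {n : ℕ} {b : Basis (Fin n) ℂ V} (hb : NatBasis μ b) {c : Fin n → ℂ}
    (h : ∑ i, c i • μ (b i) (b i) ∈ Z) (i : Fin n) : c i • μ (b i) (b i) ∈ Z := by
  choose d hd using fun i => exists_sq (c i)
  have hrepr : ∀ i, b.repr (∑ i, d i • b i) i = d i := by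
    intro i
    rw [b.repr_sum_self]
  have h1 : μ (∑ i, d i • b i) (∑ i, d i • b i) ∈ Z := by
    rw [hb.mul_eq]
    simp_rw [hrepr, hd]
    exact h
  have h2 := p_one hP hb.comm hZ h1 (b i)
  rw [hb.comm, hb.left, hrepr] at h2
  have h3 := Submodule.smul_mem _ (d i) h2
  rwa [smul_smul, hd] at h3

theorem p_two' {μ : Prd V} (hP : CondP μ) {Z : Submodule ℂ V} (hZ : IsIdeal μ Z)
    {n : ℕ} {b : Basis (Fin n) ℂ V} (hb : NatBasis μ b) {i j : Fin n} (hij : i ≠ j) {p q : ℂ}
    (h : p • μ (b i) (b i) + q • μ (b j) (b j) ∈ Z) : p • μ (b i) (b i) ∈ Z := by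
  have h1 := p_two hP hZ hb (c := fun k => if k = i then p else if k = j then q else 0) (by
    rw [Finset.sum_eq_add i j hij]
    · simpa [hij.symm] using h
    · intro k _ hk
      rw [if_neg hk.1, if_neg hk.2, zero_smul]
    · intro hh; exact absurd (Finset.mem_univ _) hh
    · intro hh; exact absurd (Finset.mem_univ _) hh) i
  simpa using h1

/-- elements multiplying everything into `Z` -/
def ann (μ : Prd V) (Z : Submodule ℂ V) : Submodule ℂ V where
  carrier := {x | ∀ y, μ x y ∈ Z}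
  add_mem' := by
    intro a b ha hb y
    rw [map_add, LinearMap.add_apply]
    exact Z.add_mem (ha y) (hb y)
  zero_mem' := by
    intro y
    rw [map_zero, LinearMap.zero_apply]
    exact Z.zero_mem
  smul_mem' := by
    intro c a ha y
    rw [map_smul, LinearMap.smul_apply]
    exact Z.smul_mem _ (ha y)

/-- the annihilator series -/
def Zs (μ : Prd V) : ℕ → Submodule ℂ V
  | 0 => ⊥
  | (j + 1) => ann μ (Zs μ j)

theorem mem_Zs_succ {μ : Prd V} {j : ℕ} {x : V} : x ∈ Zs μ (j + 1) ↔ ∀ y, μ x y ∈ Zs μ j :=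
  Iff.rfl

theorem Zs_le_succ (μ : Prd V) (j : ℕ) : Zs μ j ≤ Zs μ (j + 1) := by
  induction j with
  | zero => exact bot_le
  | succ j ih =>
    intro x hx
    rw [mem_Zs_succ] at hx ⊢
    exact fun y => ih (hx y)

theorem Zs_mono (μ : Prd V) : Monotone (Zs μ) := monotone_nat_of_le_succ (Zs_le_succ μ)

theorem Zs_ideal (μ : Prd V) (j : ℕ) : IsIdeal μ (Zs μ j) := by
  cases j with
  | zero =>
    intro z hz y
    rw [(Submodule.mem_bot ℂ).1 hz, map_zero, LinearMap.zero_apply]
    exact Submodule.zero_mem _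
  | succ j =>
    intro z hz y
    exact Zs_le_succ μ j (hz y)

theorem coord {μ : Prd V} {n : ℕ} {b : Basis (Fin n) ℂ V} (hb : NatBasis μ b) (j : ℕ) (x : V) :
    x ∈ Zs μ j ↔ ∀ i, b.repr x i ≠ 0 → b i ∈ Zs μ j := by
  constructor
  · intro hx i hi
    cases j with
    | zero =>
      rw [(Submodule.mem_bot ℂ).1 hx] at hi
      simp at hi
    | succ j =>
      rw [mem_Zs_succ] at hx ⊢
      intro y
      have h := hx (b i)
      rw [hb.comm, hb.left] at h
      rw [hb.left]
      have h2 := Submodule.smul_mem _ (b.repr x i)⁻¹ h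
      rw [smul_smul, inv_mul_cancel₀ hi, one_smul] at h2
      exact Submodule.smul_mem _ _ h2
  · intro h
    rw [← b.sum_repr x]
    refine Submodule.sum_mem _ fun i _ => ?_
    by_cases hi : b.repr x i = 0
    · rw [hi, zero_smul]
      exact Submodule.zero_mem _
    · exact Submodule.smul_mem _ _ (h i hi)

theorem sq_not_mem {μ : Prd V} (hP : CondP μ) (hc : ∀ x y, μ x y = μ y x) {k : ℕ} {x : V}
    (hx : x ∉ Zs μ (k + 1)) : μ x x ∉ Zs μ k := fun h =>
  hx (mem_Zs_succ.2 fun y => p_one hP hc (Zs_ideal μ k) h y)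

theorem p_k {μ : Prd V} (hP : CondP μ) {n : ℕ} {b : Basis (Fin n) ℂ V} (hb : NatBasis μ b)
    {k : ℕ} {i j : Fin n} (hij : i ≠ j) (hi : b i ∈ Zs μ (k + 2)) (hi' : b i ∉ Zs μ (k + 1))
    (hj : b j ∈ Zs μ (k + 2)) (hj' : b j ∉ Zs μ (k + 1)) : False := by
  have hc := hb.comm
  set w := μ (b i) (b i) + μ (b j) (b j) with hw
  have hwY : w ∈ Zs μ (k + 1) := Submodule.add_mem _ (hi _) (hj _)
  set x := b i + b j with hx
  have hxx : μ x x = w := by
    rw [hx, hw]
    simp only [map_add, LinearMap.add_apply]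
    rw [hb i j hij, hb j i hij.symm]
    abel
  have hii := sq_not_mem hP hc hi'
  have hjj := sq_not_mem hP hc hj'
  have hxb : μ x (b i) = μ (b i) (b i) := by
    rw [hx, map_add, LinearMap.add_apply, hb j i hij.symm, add_zero]
  have hxY : x ∉ Zs μ (k + 1) := by
    intro h
    have := h (b i)
    rw [hxb] at this
    exact hii this
  have hG : Submodule.span ℂ {w} ⊔ Zs μ k ≤ Zs μ (k + 1) := by
    refine sup_le ?_ (Zs_le_succ μ k)
    rw [Submodule.span_le, Set.singleton_subset_iff]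
    exact hwY
  have hF : IsSubalgebra μ (Submodule.span ℂ {x} ⊔ (Submodule.span ℂ {w} ⊔ Zs μ k)) := by
    intro a ha b hb
    obtain ⟨a1, ha1, a2, ha2, rfl⟩ := Submodule.mem_sup.1 ha
    obtain ⟨b1, hb1, b2, hb2, rfl⟩ := Submodule.mem_sup.1 hb
    obtain ⟨α, rfl⟩ := Submodule.mem_span_singleton.1 ha1
    obtain ⟨β, rfl⟩ := Submodule.mem_span_singleton.1 hb1
    apply Submodule.mem_sup_right
    rw [expand]
    refine Submodule.add_mem _ (Submodule.add_mem _ (Submodule.add_mem _ ?_ ?_) ?_) ?_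
    · rw [hxx]
      exact Submodule.mem_sup_left (Submodule.smul_mem _ _ (Submodule.mem_span_singleton_self w))
    · rw [hc x b2]
      exact Submodule.mem_sup_right (Submodule.smul_mem _ _ (hG hb2 _))
    · exact Submodule.mem_sup_right (Submodule.smul_mem _ _ (hG ha2 _))
    · exact Submodule.mem_sup_right (hG ha2 _)
  obtain ⟨m, g, l, hg, hgF, hgG⟩ := exists_nat hP hF
    (Submodule.mem_sup_left (Submodule.mem_span_singleton_self x))
    (fun h => hxY (hG h) : x ∉ Submodule.span ℂ {w} ⊔ Zs μ k)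
  obtain ⟨a1, ha1, y, hy, hgl⟩ := Submodule.mem_sup.1 hgF
  obtain ⟨α, rfl⟩ := Submodule.mem_span_singleton.1 ha1
  have hα : α ≠ 0 := by
    rintro rfl
    rw [zero_smul, zero_add] at hgl
    exact hgG (hgl ▸ hy)
  have hyY := hG hy
  have h1 : μ (g l) (b i) - α • μ (b i) (b i) ∈ Zs μ k := by
    rw [← hgl, map_add, LinearMap.add_apply, map_smul, LinearMap.smul_apply, hxb,
      add_sub_cancel_left]
    exact hyY _
  have h2 : μ (g l) (g l) - (α * α) • w ∈ Zs μ k := by
    rw [← hgl, expand, hxx]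
    have : (α * α) • w + α • μ x y + α • μ y x + μ y y - (α * α) • w =
      α • μ x y + α • μ y x + μ y y := by abel
    rw [this]
    refine Submodule.add_mem _ (Submodule.add_mem _ ?_ ?_) (hyY _)
    · rw [hc x y]
      exact Submodule.smul_mem _ _ (hyY _)
    · exact Submodule.smul_mem _ _ (hyY _)
  set c := g.repr (b i) l with hcdef
  have h3 : μ (g l) (b i) = c • μ (g l) (g l) := hg.left l (b i)
  have h4 : (α - c * (α * α)) • μ (b i) (b i) + (-(c * (α * α))) • μ (b j) (b j) ∈ Zs μ k := by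
    have := Submodule.sub_mem _ (Submodule.smul_mem _ c h2) h1
    rw [h3] at this
    have e : (α - c * (α * α)) • μ (b i) (b i) + (-(c * (α * α))) • μ (b j) (b j) =
      c • (μ (g l) (g l) - (α * α) • w) - (c • μ (g l) (g l) - α • μ (b i) (b i)) := by
      rw [hw]
      module
    rw [e]
    exact this
  have h5 := p_two' hP (Zs_ideal μ k) hb hij h4
  rw [add_comm] at h4
  have h6 := p_two' hP (Zs_ideal μ k) hb hij.symm h4
  have h7 : c * (α * α) = 0 := by
    by_contra hne
    apply hjj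
    have := Submodule.smul_mem _ (-(c * (α * α)))⁻¹ h6
    rwa [smul_smul, inv_mul_cancel₀ (neg_ne_zero.2 hne), one_smul] at this
  rw [h7, sub_zero] at h5
  apply hii
  have := Submodule.smul_mem _ α⁻¹ h5
  rwa [smul_smul, inv_mul_cancel₀ hα, one_smul] at this

/-- each layer above the first one is at most one-dimensional -/
theorem layer {μ : Prd V} (hP : CondP μ) {n : ℕ} {b : Basis (Fin n) ℂ V} (hb : NatBasis μ b)
    {k : ℕ} {x : V} (hx : x ∈ Zs μ (k + 2)) (hx' : x ∉ Zs μ (k + 1)) :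
    Zs μ (k + 2) ≤ Submodule.span ℂ {x} ⊔ Zs μ (k + 1) := by
  rw [coord hb] at hx'
  push Not at hx'
  obtain ⟨i, hi, hi'⟩ := hx'
  have hi2 : b i ∈ Zs μ (k + 2) := (coord hb _ _).1 hx i hi
  intro y hy
  rw [Submodule.mem_sup]
  refine ⟨(b.repr y i / b.repr x i) • x,
    Submodule.smul_mem _ _ (Submodule.mem_span_singleton_self x),
    y - (b.repr y i / b.repr x i) • x, ?_, by abel⟩
  rw [coord hb]
  intro j hj
  have hij : j ≠ i := by
    rintro rfl
    apply hj
    rw [map_sub, map_smul, Finsupp.sub_apply, Finsupp.smul_apply, smul_eq_mul,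
      div_mul_cancel₀ _ hi, sub_self]
  have hj2 : b j ∈ Zs μ (k + 2) := (coord hb _ _).1
    (Submodule.sub_mem _ hy (Submodule.smul_mem _ _ hx)) j hj
  by_contra hj'
  exact p_k hP hb hij.symm hi2 hi' hj2 hj'

theorem sum_sub {n : ℕ} {M : Type*} [AddCommMonoid M] (p : Fin n → Prop) [DecidablePred p]
    (F : Fin n → M) (h : ∀ i, ¬ p i → F i = 0) : ∑ i, F i = ∑ j : {i // p i}, F j := by
  rw [← Finset.sum_subtype (Finset.univ.filter p) (by simp) F]
  rw [Finset.sum_filter_of_ne]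
  intro i _ hi
  by_contra hp
  exact hi (h i hp)

theorem idem {μ : Prd V} (hP : CondP μ) {Z : Submodule ℂ V} (hZ : IsIdeal μ Z) {n : ℕ}
    {b : Basis (Fin n) ℂ V} (hb : NatBasis μ b)
    (hcoord : ∀ x, (∀ i, b.repr x i ≠ 0 → b i ∈ Z) → x ∈ Z)
    (hcoord' : ∀ x ∈ Z, ∀ i, b.repr x i ≠ 0 → b i ∈ Z)
    (hsq : ∀ i, μ (b i) (b i) ∈ Z → b i ∈ Z) (hne : ∃ i, b i ∉ Z) :
    ∃ x, x ∉ Z ∧ μ x x - x ∈ Z ∧ ∀ i, b i ∈ Z → b.repr x i = 0 := by
  classical
  obtain ⟨i0, hi0⟩ := hne
  have : Nonempty {i : Fin n // b i ∉ Z} := ⟨⟨i0, hi0⟩⟩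
  let A : Matrix {i : Fin n // b i ∉ Z} {i : Fin n // b i ∉ Z} ℂ :=
    Matrix.of fun i k => b.repr (μ (b i) (b i)) k
  have hA : A.det ≠ 0 := by
    intro h0
    obtain ⟨v, hv, hvA⟩ := Matrix.exists_vecMul_eq_zero_iff.2 h0
    let c : Fin n → ℂ := fun i => if h : b i ∉ Z then v ⟨i, h⟩ else 0
    have hmem : ∑ i, c i • μ (b i) (b i) ∈ Z := by
      apply hcoord
      intro k hk
      by_contra hkZ
      apply hk
      rw [map_sum, Finsupp.finsetSum_apply]
      rw [sum_sub (fun i => b i ∉ Z)]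
      · have h1 := congrFun hvA ⟨k, hkZ⟩
        rw [Matrix.vecMul, dotProduct] at h1
        simp only [Pi.zero_apply] at h1
        rw [← h1]
        refine Finset.sum_congr rfl fun j _ => ?_
        rw [map_smul, Finsupp.smul_apply, smul_eq_mul]
        simp only [c, A, Matrix.of_apply]
        rw [dif_pos j.2]
      · intro i hi
        simp only [c]
        rw [dif_neg hi]
        simp
    apply hv
    ext i
    by_contra hvi
    have h2 := p_two hP hZ hb hmem i
    have h3 : c i = v i := by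
      simp only [c]
      rw [dif_pos i.2]
    rw [h3] at h2
    have h4 := Submodule.smul_mem _ (v i)⁻¹ h2
    rw [smul_smul, inv_mul_cancel₀ hvi, one_smul] at h4
    exact i.2 (hsq i h4)
  have hAu : IsUnit A.det := isUnit_iff_ne_zero.2 hA
  have hAu' : IsUnit ((A⁻¹).transpose).det := by
    rw [Matrix.det_transpose]
    exact Matrix.isUnit_nonsing_inv_det A hAu
  obtain ⟨x0, hx0, hx0'⟩ := Pool.Agent.H66.Evo.exists_sol (A⁻¹).transpose hAu'
  have hx1 : ∀ l, ∑ i, x0 i ^ 2 * A i l = x0 l := by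
    intro l
    simp_rw [hx0', Matrix.transpose_apply, Finset.sum_mul]
    rw [Finset.sum_comm]
    have : ∀ k, ∑ i, A⁻¹ k i * x0 k * A i l = x0 k * (A⁻¹ * A) k l := by
      intro k
      rw [Matrix.mul_apply, Finset.mul_sum]
      refine Finset.sum_congr rfl fun i _ => ?_
      ring
    simp_rw [this, Matrix.nonsing_inv_mul A hAu, Matrix.one_apply]
    simp
  let ξ : Fin n → ℂ := fun i => if h : b i ∉ Z then x0 ⟨i, h⟩ else 0
  have hξ : ∀ i, b.repr (∑ i, ξ i • b i) i = ξ i := by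
    intro i
    rw [b.repr_sum_self]
  have hξ0 : ∀ i, b i ∈ Z → ξ i = 0 := by
    intro i hi
    simp only [ξ]
    rw [dif_neg (not_not.2 hi)]
  refine ⟨∑ i, ξ i • b i, ?_, ?_, ?_⟩
  · intro hmem
    apply hx0
    ext i
    by_contra hxi
    apply i.2
    apply hcoord' _ hmem
    rw [hξ]
    simp only [ξ]
    rw [dif_pos i.2]
    exact hxi
  · apply hcoord
    intro k hk
    by_contra hkZ
    apply hk
    rw [map_sub, Finsupp.sub_apply, hξ, hb.mul_eq, map_sum, Finsupp.finsetSum_apply]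
    rw [sum_sub (fun i => b i ∉ Z)]
    · have h1 := hx1 ⟨k, hkZ⟩
      rw [sub_eq_zero]
      have h2 : ξ k = x0 ⟨k, hkZ⟩ := by
        simp only [ξ]
        rw [dif_pos hkZ]
      rw [h2, ← h1]
      refine Finset.sum_congr rfl fun j _ => ?_
      rw [map_smul, Finsupp.smul_apply, smul_eq_mul, hξ]
      have h3 : ξ j = x0 j := by
        simp only [ξ]
        rw [dif_pos j.2]
      rw [h3]
      simp only [A, Matrix.of_apply]
      ring
    · intro i hi
      rw [hξ, hξ0 i (not_not.1 hi)]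
      simp
  · intro i hi
    rw [hξ]
    exact hξ0 i hi

theorem smul_mem_cancel {Z : Submodule ℂ V} {c : ℂ} (hc : c ≠ 0) {x : V} (h : c • x ∈ Z) :
    x ∈ Z := by
  have := Submodule.smul_mem _ c⁻¹ h
  rwa [smul_smul, inv_mul_cancel₀ hc, one_smul] at this

theorem sq_congr {μ : Prd V} (hc : ∀ x y, μ x y = μ y x) {Z : Submodule ℂ V}
    (hZ : IsIdeal μ Z) {x z : V} (a : ℂ) (hz : z ∈ Z) :
    μ (a • x + z) (a • x + z) - (a * a) • μ x x ∈ Z := by
  rw [expand]
  have : (a * a) • μ x x + a • μ x z + a • μ z x + μ z z - (a * a) • μ x x =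
    a • μ x z + a • μ z x + μ z z := by abel
  rw [this]
  refine Submodule.add_mem _ (Submodule.add_mem _ ?_ ?_) (hZ _ hz _)
  · rw [hc x z]
    exact Submodule.smul_mem _ _ (hZ _ hz _)
  · exact Submodule.smul_mem _ _ (hZ _ hz _)

theorem idem_congr {μ : Prd V} (hc : ∀ x y, μ x y = μ y x) {Z : Submodule ℂ V}
    (hZ : IsIdeal μ Z) {x u : V} (hx : μ x x - x ∈ Z) (hu : u - x ∈ Z) : μ u u - u ∈ Z := by
  have h1 := sq_congr hc hZ (x := x) 1 hu
  have e : (1 : ℂ) • x + (u - x) = u := by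
    rw [one_smul]
    abel
  rw [e, one_mul, one_smul] at h1
  have e2 : μ u u - u = (μ u u - μ x x) + (μ x x - x) - (u - x) := by abel
  rw [e2]
  exact Submodule.sub_mem _ (Submodule.add_mem _ h1 hx) hu

theorem adapt {μ : Prd V} (hP : CondP μ) (hc : ∀ x y, μ x y = μ y x) {Z : Submodule ℂ V}
    (hZ : IsIdeal μ Z) {x : V} (hx : x ∉ Z) (hxx : μ x x - x ∈ Z) :
    ∃ (n : ℕ) (g : Basis (Fin n) ℂ V) (i : Fin n) (α : ℂ) (z : V),
      NatBasis μ g ∧ α ≠ 0 ∧ z ∈ Z ∧ g i = α • x + z := by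
  have hF : IsSubalgebra μ (Submodule.span ℂ {x} ⊔ Z) := by
    intro a ha b hb
    obtain ⟨a1, ha1, a2, ha2, rfl⟩ := Submodule.mem_sup.1 ha
    obtain ⟨b1, hb1, b2, hb2, rfl⟩ := Submodule.mem_sup.1 hb
    obtain ⟨α, rfl⟩ := Submodule.mem_span_singleton.1 ha1
    obtain ⟨β, rfl⟩ := Submodule.mem_span_singleton.1 hb1
    rw [expand]
    refine Submodule.add_mem _ (Submodule.add_mem _ (Submodule.add_mem _ ?_ ?_) ?_) ?_
    · have : μ x x = x + (μ x x - x) := by abel
      rw [this]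
      exact Submodule.smul_mem _ _ (Submodule.add_mem _
        (Submodule.mem_sup_left (Submodule.mem_span_singleton_self x))
        (Submodule.mem_sup_right hxx))
    · rw [hc x b2]
      exact Submodule.mem_sup_right (Submodule.smul_mem _ _ (hZ _ hb2 _))
    · exact Submodule.mem_sup_right (Submodule.smul_mem _ _ (hZ _ ha2 _))
    · exact Submodule.mem_sup_right (hZ _ ha2 _)
  obtain ⟨n, b, i, hb, hbF, hbG⟩ := exists_nat hP hF
    (Submodule.mem_sup_left (Submodule.mem_span_singleton_self x)) hx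
  obtain ⟨a1, ha1, z, hz, hbi⟩ := Submodule.mem_sup.1 hbF
  obtain ⟨α, rfl⟩ := Submodule.mem_span_singleton.1 ha1
  refine ⟨n, b, i, α, z, hb, ?_, hz, hbi.symm⟩
  rintro rfl
  rw [zero_smul, zero_add] at hbi
  exact hbG (hbi ▸ hz)

theorem exists_root (c : ℂ) : ∃ p : ℂ, p ≠ 0 ∧ p * p + c = p := by
  obtain ⟨d, hd⟩ := exists_sq (1 - 4 * c)
  by_cases h : (1 + d) / 2 = 0
  · refine ⟨(1 - d) / 2, ?_, ?_⟩
    · intro h'
      have : (1 : ℂ) = (1 + d) / 2 + (1 - d) / 2 := by ring
      rw [h, h'] at this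
      norm_num at this
    · linear_combination (1 / 4) * hd
  · exact ⟨(1 + d) / 2, h, by linear_combination (1 / 4) * hd⟩

theorem main1 {μ : Prd V} (hP : CondP μ) {n : ℕ} {b : Basis (Fin n) ℂ V} (hb : NatBasis μ b)
    {t : ℕ} (ht : Zs μ t = Zs μ (t + 1)) (htop : Zs μ t ≠ ⊤) :
    ∃ u, u ∉ Zs μ t ∧ μ u u - u ∈ Zs μ t ∧ Submodule.span ℂ {u} ⊔ Zs μ t = ⊤ := by
  have hc := hb.comm
  have hZ := Zs_ideal μ t
  have hann : ∀ x, (∀ y, μ x y ∈ Zs μ t) → x ∈ Zs μ t := by
    intro x hx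
    rw [ht]
    exact hx
  have hcoord : ∀ {m : ℕ} {g : Basis (Fin m) ℂ V}, NatBasis μ g → ∀ x,
      x ∈ Zs μ t ↔ ∀ i, g.repr x i ≠ 0 → g i ∈ Zs μ t := fun hg x => coord hg t x
  generalize Zs μ t = Z at *
  have hsq : ∀ x, μ x x ∈ Z → x ∈ Z := fun x hx => hann x (p_one hP hc hZ hx)
  have hne : ∀ {Y : Submodule ℂ V}, Y ≠ ⊤ → ∀ {m : ℕ} (g : Basis (Fin m) ℂ V),
      ∃ i, g i ∉ Y := by
    intro Y hY m g
    by_contra hcon
    push Not at hcon
    apply hY
    rw [eq_top_iff]
    intro x _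
    rw [← g.sum_repr x]
    exact Submodule.sum_mem _ fun i _ => Submodule.smul_mem _ _ (hcon i)
  obtain ⟨x, hxZ, hxx, -⟩ := idem hP hZ hb (fun x hx => (hcoord hb x).2 hx)
    (fun x hx => (hcoord hb x).1 hx) (fun i => hsq _) (hne htop b)
  obtain ⟨m, g, i0, α, z, hg, hα, hz, hgi⟩ := adapt hP hc hZ hxZ hxx
  obtain ⟨u, hu⟩ : ∃ u, u = α⁻¹ • g i0 := ⟨_, rfl⟩
  have hux : u - x ∈ Z := by
    have : u - x = α⁻¹ • z := by
      rw [hu, hgi, smul_add, smul_smul, inv_mul_cancel₀ hα, one_smul]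
      abel
    rw [this]
    exact Submodule.smul_mem _ _ hz
  have hgu : g i0 = α • u := by
    rw [hu, smul_smul, mul_inv_cancel₀ hα, one_smul]
  have huu : μ u u - u ∈ Z := idem_congr hc hZ hxx hux
  have huZ : u ∉ Z := by
    intro h
    apply hxZ
    have : x = u - (u - x) := by abel
    rw [this]
    exact Submodule.sub_mem _ h hux
  refine ⟨u, huZ, huu, ?_⟩
  by_contra hZ'top
  set Z' := Submodule.span ℂ {u} ⊔ Z with hZ'
  have hgg : μ (g i0) (g i0) = (α * α) • μ u u := by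
    rw [hgu]
    simp [smul_smul]
  have huy : ∀ y, μ u y = (α * g.repr y i0) • μ u u := by
    intro y
    have e : μ u y = α⁻¹ • μ (g i0) y := by rw [hu, map_smul, LinearMap.smul_apply]
    rw [e, hg.left, hgg, smul_smul, smul_smul]
    congr 1
    field_simp
  have huZ' : u ∈ Z' := Submodule.mem_sup_left (Submodule.mem_span_singleton_self u)
  have huuZ' : μ u u ∈ Z' := by
    have : μ u u = (μ u u - u) + u := by abel
    rw [this]
    exact Submodule.add_mem _ (Submodule.mem_sup_right huu) huZ'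
  have hZ'i : IsIdeal μ Z' := by
    intro a ha y
    obtain ⟨a1, ha1, a2, ha2, rfl⟩ := Submodule.mem_sup.1 ha
    obtain ⟨c, rfl⟩ := Submodule.mem_span_singleton.1 ha1
    rw [map_add, LinearMap.add_apply, map_smul, LinearMap.smul_apply, huy]
    exact Submodule.add_mem _ (Submodule.smul_mem _ _ (Submodule.smul_mem _ _ huuZ'))
      (Submodule.mem_sup_right (hZ _ ha2 _))
  have hgi0 : g i0 ∈ Z' := by
    rw [hgu]
    exact Submodule.smul_mem _ _ huZ'
  have hc1 : ∀ x, (∀ i, g.repr x i ≠ 0 → g i ∈ Z') → x ∈ Z' := by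
    intro x h
    rw [← g.sum_repr x]
    refine Submodule.sum_mem _ fun i _ => ?_
    by_cases hi : g.repr x i = 0
    · rw [hi, zero_smul]
      exact Submodule.zero_mem _
    · exact Submodule.smul_mem _ _ (h i hi)
  have hc2 : ∀ x ∈ Z', ∀ i, g.repr x i ≠ 0 → g i ∈ Z' := by
    intro a ha i hi
    by_cases hii : i = i0
    · rw [hii]
      exact hgi0
    obtain ⟨a1, ha1, a2, ha2, rfl⟩ := Submodule.mem_sup.1 ha
    obtain ⟨c, rfl⟩ := Submodule.mem_span_singleton.1 ha1
    apply Submodule.mem_sup_right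
    apply (hcoord hg a2).1 ha2
    rw [map_add, map_smul, Finsupp.add_apply, Finsupp.smul_apply, hu, map_smul,
      Finsupp.smul_apply, g.repr_self, Finsupp.single_eq_of_ne hii, smul_zero, smul_zero,
      zero_add] at hi
    exact hi
  have hsq' : ∀ i, μ (g i) (g i) ∈ Z' → g i ∈ Z' := by
    intro i hi
    by_cases hii : i = i0
    · rw [hii]
      exact hgi0
    obtain ⟨a1, ha1, a2, ha2, hsum⟩ := Submodule.mem_sup.1 hi
    obtain ⟨c, rfl⟩ := Submodule.mem_span_singleton.1 ha1
    have h1 : (1 : ℂ) • μ (g i) (g i) + (-(c * (α * α)⁻¹)) • μ (g i0) (g i0) ∈ Z := by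
      have e : (1 : ℂ) • μ (g i) (g i) + (-(c * (α * α)⁻¹)) • μ (g i0) (g i0) =
          a2 - c • (μ u u - u) := by
        rw [hgg, ← hsum, smul_smul]
        have : -(c * (α * α)⁻¹) * (α * α) = -c := by field_simp
        rw [this]
        module
      rw [e]
      exact Submodule.sub_mem _ ha2 (Submodule.smul_mem _ _ huu)
    have h2 := p_two' hP hZ hg hii h1
    rw [one_smul] at h2
    exact Submodule.mem_sup_right (hsq _ h2)
  obtain ⟨v, hvZ', hvv, hv0⟩ := idem hP hZ'i hg hc1 hc2 hsq' (hne hZ'top g)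
  have huv : μ u v = 0 := by
    rw [huy, hv0 i0 hgi0, mul_zero, zero_smul]
  have hvu : μ v u = 0 := by rw [hc, huv]
  obtain ⟨a1, ha1, z1, hz1, hsum⟩ := Submodule.mem_sup.1 hvv
  obtain ⟨c, rfl⟩ := Submodule.mem_span_singleton.1 ha1
  obtain ⟨p, hp, hpc⟩ := exists_root c
  have hww : μ (p • u + v) (p • u + v) - (p • u + v) ∈ Z := by
    rw [expand, huv, hvu]
    have e : (p * p) • μ u u + p • (0 : V) + p • (0 : V) + μ v v - (p • u + v) =
        (p * p) • (μ u u - u) + (p * p + c - p) • u + ((μ v v - v) - c • u) := by module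
    rw [e, ← hsum, hpc, sub_self, zero_smul, add_zero, add_sub_cancel_left]
    exact Submodule.add_mem _ (Submodule.smul_mem _ _ huu) hz1
  have hwZ : p • u + v ∉ Z := by
    intro h
    apply hvZ'
    have : v = (p • u + v) - p • u := by abel
    rw [this]
    exact Submodule.sub_mem _ (Submodule.mem_sup_right h) (Submodule.smul_mem _ _ huZ')
  obtain ⟨m', h, k, β, z2, hh, hβ, hz2, hhk⟩ := adapt hP hc hZ hwZ hww
  have h1 : μ (h k) u - (β * p) • u ∈ Z := by
    rw [hhk, map_add, LinearMap.add_apply, map_smul, LinearMap.smul_apply, map_add,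
      LinearMap.add_apply, map_smul, LinearMap.smul_apply, hvu]
    have e : β • (p • μ u u + 0) + μ z2 u - (β * p) • u = (β * p) • (μ u u - u) + μ z2 u := by
      module
    rw [e]
    exact Submodule.add_mem _ (Submodule.smul_mem _ _ huu) (hZ _ hz2 _)
  have h2 : μ (h k) (h k) - (β * β) • (p • u + v) ∈ Z := by
    have h3 := sq_congr hc hZ (x := p • u + v) β hz2
    rw [← hhk] at h3
    have e : μ (h k) (h k) - (β * β) • (p • u + v) =
        (μ (h k) (h k) - (β * β) • μ (p • u + v) (p • u + v)) +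
        (β * β) • (μ (p • u + v) (p • u + v) - (p • u + v)) := by module
    rw [e]
    exact Submodule.add_mem _ h3 (Submodule.smul_mem _ _ hww)
  set c' := h.repr u k with hc'
  have h3 : μ (h k) u = c' • μ (h k) (h k) := hh.left k u
  have h4 : (β * p) • u - (c' * (β * β)) • (p • u + v) ∈ Z := by
    have e : (β * p) • u - (c' * (β * β)) • (p • u + v) =
        c' • (μ (h k) (h k) - (β * β) • (p • u + v)) - (μ (h k) u - (β * p) • u) := by
      rw [h3]
      module
    rw [e]
    exact Submodule.sub_mem _ (Submodule.smul_mem _ _ h2) h1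
  have h5 : c' * (β * β) = 0 := by
    by_contra hne0
    apply hvZ'
    apply smul_mem_cancel hne0
    have e : (c' * (β * β)) • v = (β * p - c' * (β * β) * p) • u -
        ((β * p) • u - (c' * (β * β)) • (p • u + v)) := by module
    rw [e]
    exact Submodule.sub_mem _ (Submodule.smul_mem _ _ huZ') (Submodule.mem_sup_right h4)
  rw [h5, zero_smul, sub_zero] at h4
  exact huZ (smul_mem_cancel (mul_ne_zero hβ hp) h4)

theorem lift {μ : Prd V} (hc : ∀ x y, μ x y = μ y x) : ∀ (j : ℕ) (u : V),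
    μ u u - u ∈ Zs μ j → ∃ e, μ e e = e ∧ e - u ∈ Zs μ j := by
  intro j
  induction j with
  | zero =>
    intro u hu
    refine ⟨u, ?_, ?_⟩
    · exact sub_eq_zero.1 ((Submodule.mem_bot ℂ).1 hu)
    · rw [sub_self]
      exact Submodule.zero_mem _
  | succ j ih =>
    intro u hu
    have h1 : μ (μ u u) (μ u u) - μ u u ∈ Zs μ j := by
      have e : μ u u = (1 : ℂ) • u + (μ u u - u) := by
        rw [one_smul]
        abel
      have h2 := expand μ 1 1 u u (μ u u - u) (μ u u - u)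
      rw [← e] at h2
      rw [h2, one_smul, one_smul, one_mul, one_smul]
      have e2 : μ u u + μ u (μ u u - u) + μ (μ u u - u) u + μ (μ u u - u) (μ u u - u) - μ u u =
        μ u (μ u u - u) + μ (μ u u - u) u + μ (μ u u - u) (μ u u - u) := by abel
      rw [e2, hc u (μ u u - u)]
      exact Submodule.add_mem _ (Submodule.add_mem _ (hu _) (hu _)) (hu _)
    obtain ⟨e, he, heu⟩ := ih _ h1
    refine ⟨e, he, ?_⟩
    have e3 : e - u = (e - μ u u) + (μ u u - u) := by abel
    rw [e3]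
    exact Submodule.add_mem _ (Zs_le_succ μ j heu) hu

theorem main2 {μ : Prd V} (hP : CondP μ) {n : ℕ} {b : Basis (Fin n) ℂ V} (hb : NatBasis μ b)
    {t : ℕ} (ht : Zs μ t = Zs μ (t + 1)) (htop : Zs μ t ≠ ⊤) :
    ∃ e, μ e e = e ∧ e ∉ Zs μ t ∧ (∀ z ∈ Zs μ t, μ e z = 0) ∧
      Submodule.span ℂ {e} ⊔ Zs μ t = ⊤ := by
  obtain ⟨u, huZ, huu, htop'⟩ := main1 hP hb ht htop
  obtain ⟨e, he, heu⟩ := lift hb.comm t u huu
  have heZ : e ∉ Zs μ t := by
    intro h
    apply huZ
    have : u = e - (e - u) := by abel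
    rw [this]
    exact Submodule.sub_mem _ h heu
  refine ⟨e, he, heZ, ?_, ?_⟩
  · have hbot : IsIdeal μ (⊥ : Submodule ℂ V) := Zs_ideal μ 0
    obtain ⟨m, g, i, α, z, hg, hα, hz, hgi⟩ := adapt hP hb.comm hbot (x := e)
      (fun h => heZ (by rw [(Submodule.mem_bot ℂ).1 h]; exact Submodule.zero_mem _))
      (by rw [he, sub_self]; exact Submodule.zero_mem _)
    rw [(Submodule.mem_bot ℂ).1 hz, add_zero] at hgi
    intro z' hz'
    have h1 : g.repr z' i = 0 := by
      by_contra hne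
      have := (coord hg t z').1 hz' i hne
      rw [hgi] at this
      exact heZ (smul_mem_cancel hα this)
    have h2 : μ (g i) z' = 0 := by
      rw [hg.left, h1, zero_smul]
    rw [hgi, map_smul, LinearMap.smul_apply] at h2
    exact (smul_eq_zero.1 h2).resolve_left hα
  · rw [eq_top_iff, ← htop']
    refine sup_le ?_ le_sup_right
    rw [Submodule.span_le, Set.singleton_subset_iff]
    have : u = e - (e - u) := by abel
    rw [this]
    exact Submodule.sub_mem _ (Submodule.mem_sup_left (Submodule.mem_span_singleton_self e))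
      (Submodule.mem_sup_right heu)

/-! ### Powers -/

theorem mul_mem_power {μ : Prd V} {i j : ℕ} (hi : 1 ≤ i) (hj : 1 ≤ j) {x y : V}
    (hx : x ∈ power μ i) (hy : y ∈ power μ j) : μ x y ∈ power μ (i + j) := by
  obtain ⟨i, rfl⟩ := Nat.exists_eq_add_of_le' hi
  obtain ⟨j, rfl⟩ := Nat.exists_eq_add_of_le' hj
  have e : i + 1 + (j + 1) = (i + j) + 2 := by ring
  rw [e, power]
  have h1 : i + j + 1 - i = j + 1 := by omega
  refine Submodule.mem_iSup_of_mem (⟨i, by omega⟩ : Fin (i + j + 1)) ?_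
  apply Submodule.apply_mem_map₂ μ hx
  simp only [h1]
  exact hy

theorem power_le {μ : Prd V} {k : ℕ} (hk : 2 ≤ k) {S : Submodule ℂ V}
    (h : ∀ i j, 1 ≤ i → 1 ≤ j → i + j = k → ∀ x ∈ power μ i, ∀ y ∈ power μ j, μ x y ∈ S) :
    power μ k ≤ S := by
  obtain ⟨k, rfl⟩ := Nat.exists_eq_add_of_le' hk
  rw [power]
  refine iSup_le fun i => ?_
  rw [Submodule.map₂_le]
  intro x hx y hy
  have := i.2
  exact h (i + 1) (k + 1 - i) (by omega) (by omega) (by omega) x hx y hy

theorem power_anti_succ (μ : Prd V) : ∀ k, power μ (k + 1) ≤ power μ k := by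
  intro k
  induction k using Nat.strong_induction_on with
  | _ k ih =>
    rcases Nat.lt_or_ge k 2 with hk | hk
    · interval_cases k
      · rw [power, power]
      · rw [power]
        exact le_top
    · refine power_le (by omega) fun i j hi hj hij x hx y hy => ?_
      rcases Nat.lt_or_ge 1 i with h1 | h1
      · have hx' : x ∈ power μ (i - 1) := by
          have := ih (i - 1) (by omega)
          rw [Nat.sub_add_cancel hi] at this
          exact this hx
        have := mul_mem_power (by omega) hj hx' hy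
        have e : i - 1 + j = k := by omega
        rwa [e] at this
      · have hi1 : i = 1 := by omega
        have hy' : y ∈ power μ (j - 1) := by
          have := ih (j - 1) (by omega)
          rw [Nat.sub_add_cancel hj] at this
          exact this hy
        have := mul_mem_power hi (by omega) hx hy'
        have e : i + (j - 1) = k := by omega
        rwa [e] at this

theorem power_anti (μ : Prd V) : Antitone (power μ) := antitone_nat_of_succ_le (power_anti_succ μ)

theorem power_le_Zs {μ : Prd V} (hc : ∀ x y, μ x y = μ y x) {t : ℕ} (ht : Zs μ t = ⊤) :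
    ∀ j, j + 1 ≤ t → ∀ k, 2 ^ j + 1 ≤ k → power μ k ≤ Zs μ (t - (j + 1)) := by
  intro j
  induction j with
  | zero =>
    intro hj k hk
    refine power_le (by simpa using hk) fun i i' _ _ _ x _ y _ => ?_
    have hx : x ∈ Zs μ (t - (0 + 1) + 1) := by
      rw [Nat.sub_add_cancel hj, ht]
      exact Submodule.mem_top
    exact hx y
  | succ j ih =>
    intro hj k hk
    have h2 : 2 ^ (j + 1) = 2 ^ j + 2 ^ j := by ring
    have h3 : 1 ≤ 2 ^ j := Nat.one_le_two_pow
    refine power_le (by omega) fun i i' hi hi' hii x hx y hy => ?_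
    have e : t - (j + 1) = t - (j + 1 + 1) + 1 := by omega
    rcases Nat.lt_or_ge i (2 ^ j + 1) with h | h
    · have h4 : y ∈ Zs μ (t - (j + 1 + 1) + 1) := by
        rw [← e]
        exact ih (by omega) i' (by omega) hy
      rw [hc]
      exact h4 x
    · have h4 : x ∈ Zs μ (t - (j + 1 + 1) + 1) := by
        rw [← e]
        exact ih (by omega) i (by omega) hx
      exact h4 y

theorem power_bot {μ : Prd V} (hc : ∀ x y, μ x y = μ y x) {t : ℕ} (ht : Zs μ t = ⊤)
    (ht1 : 1 ≤ t) : power μ (2 ^ (t - 1) + 1) = ⊥ := by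
  have := power_le_Zs hc ht (t - 1) (by omega) _ le_rfl
  rw [Nat.sub_add_cancel ht1, Nat.sub_self] at this
  exact le_bot_iff.1 this

theorem nilp_of_Zs {μ : Prd V} (hc : ∀ x y, μ x y = μ y x) {t : ℕ} (ht : Zs μ t = ⊤) :
    IsNilpotent μ := by
  have h1 : Zs μ (t + 1) = ⊤ := top_le_iff.1 (ht ▸ Zs_le_succ μ t)
  exact ⟨_, Nat.le_add_left 1 _, power_bot hc h1 (by omega)⟩

theorem index_le {μ : Prd V} (hc : ∀ x y, μ x y = μ y x) {t : ℕ} (ht : Zs μ t = ⊤)
    (ht1 : 1 ≤ t) : index μ ≤ 2 ^ (t - 1) + 1 :=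
  Nat.sInf_le ⟨Nat.le_add_left 1 _, power_bot hc ht ht1⟩

theorem lt_index {μ : Prd V} (hn : IsNilpotent μ) {m : ℕ} {x : V} (hx : x ∈ power μ m)
    (hx0 : x ≠ 0) : m < index μ := by
  have h1 : index μ ∈ {m | 1 ≤ m ∧ power μ m = ⊥} := Nat.sInf_mem hn
  by_contra hle
  push Not at hle
  have h2 := power_anti μ hle hx
  rw [h1.2] at h2
  exact hx0 ((Submodule.mem_bot ℂ).1 h2)

theorem nilp_Zs {μ : Prd V} (hn : IsNilpotent μ) : ∃ t, Zs μ t = ⊤ := by
  obtain ⟨m, hm, hbot⟩ := hn
  have key : ∀ j, j + 1 ≤ m → power μ (m - j) ≤ Zs μ j := by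
    intro j
    induction j with
    | zero =>
      intro _
      rw [Nat.sub_zero, hbot]
      exact bot_le
    | succ j ih =>
      intro hj x hx
      rw [mem_Zs_succ]
      intro y
      apply ih (by omega)
      have hy : y ∈ power μ 1 := by
        rw [power]
        exact Submodule.mem_top
      have := mul_mem_power (by omega) le_rfl hx hy
      have e : m - (j + 1) + 1 = m - j := by omega
      rwa [e] at this
  refine ⟨m - 1, ?_⟩
  have := key (m - 1) (by omega)
  have e : m - (m - 1) = 1 := by omega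
  rw [e, power] at this
  exact top_le_iff.1 this

theorem Zs_const {μ : Prd V} {i : ℕ} (h : Zs μ i = Zs μ (i + 1)) : ∀ k, Zs μ (i + k) = Zs μ i := by
  intro k
  induction k with
  | zero => rfl
  | succ k ih =>
    have : Zs μ (i + (k + 1)) = ann μ (Zs μ (i + k)) := rfl
    rw [this, ih]
    exact h.symm

theorem Zs_strict {μ : Prd V} {T s : ℕ} (hT : Zs μ T = ⊤) (hs : Zs μ s ≠ ⊤) :
    Zs μ s ≠ Zs μ (s + 1) := by
  intro h
  apply hs
  have h1 := Zs_const h T
  rw [← h1, eq_top_iff, ← hT]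
  exact Zs_mono μ (by omega)

theorem finrank_Zs_lt {μ : Prd V} [FiniteDimensional ℂ V] {s : ℕ} (h : Zs μ s ≠ Zs μ (s + 1)) :
    finrank ℂ (Zs μ s) < finrank ℂ (Zs μ (s + 1)) :=
  Submodule.finrank_lt_finrank_of_lt (lt_of_le_of_ne (Zs_le_succ μ s) h)

theorem Zs_finrank_top {μ : Prd V} [FiniteDimensional ℂ V] (hn : IsNilpotent μ) :
    Zs μ (finrank ℂ V) = ⊤ := by
  obtain ⟨T, hT⟩ := nilp_Zs hn
  by_contra hne
  have h1 : ∀ j ≤ finrank ℂ V + 1, j ≤ finrank ℂ (Zs μ j) := by
    intro j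
    induction j with
    | zero => intro _; exact Nat.zero_le _
    | succ j ih =>
      intro hj
      have h2 : Zs μ j ≠ ⊤ := by
        intro h
        apply hne
        rw [eq_top_iff, ← h]
        exact Zs_mono μ (by omega)
      have h3 := finrank_Zs_lt (Zs_strict hT h2)
      have h4 := ih (by omega)
      omega
  have h2 := h1 _ le_rfl
  have h3 := Submodule.finrank_le (Zs μ (finrank ℂ V + 1))
  omega

/-! ### Restriction to a subalgebra, and isomorphisms -/

/-- the product restricted to a subalgebra -/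
def restr (μ : Prd V) (F : Submodule ℂ V) (hF : IsSubalgebra μ F) : Prd F :=
  LinearMap.mk₂ ℂ (fun x y => (⟨μ x y, hF x x.2 y y.2⟩ : F))
    (by intro x y z; ext; simp) (by intro c x y; ext; simp) (by intro x y z; ext; simp)
    (by intro c x y; ext; simp)

theorem restr_apply {μ : Prd V} {F : Submodule ℂ V} (hF : IsSubalgebra μ F) (x y : F) :
    ((restr μ F hF x y : F) : V) = μ x y := rfl

theorem restr_evolution {μ : Prd V} (hP : CondP μ) {F : Submodule ℂ V}
    (hF : IsSubalgebra μ F) : IsEvolution (restr μ F hF) := by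
  classical
  obtain ⟨m, g, S, hg, hS⟩ := hP F hF
  have hmem : ∀ i : S, g i ∈ F := by
    intro i
    rw [hS]
    exact Submodule.subset_span ⟨i, i.2, rfl⟩
  let w : S → F := fun i => ⟨g i, hmem i⟩
  have hli : LinearIndependent ℂ w := by
    apply LinearIndependent.of_comp F.subtype
    exact g.linearIndependent.comp _ Subtype.val_injective
  have hsp : ⊤ ≤ Submodule.span ℂ (Set.range w) := by
    have h1 : Submodule.map F.subtype (Submodule.span ℂ (Set.range w)) = F := by
      rw [Submodule.map_span, ← Set.range_comp]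
      conv_rhs => rw [hS]
      congr 1
      ext x
      constructor
      · rintro ⟨i, rfl⟩
        exact ⟨i, i.2, rfl⟩
      · rintro ⟨i, hi, rfl⟩
        exact ⟨⟨i, hi⟩, rfl⟩
    intro x _
    have h2 : (x : V) ∈ Submodule.map F.subtype (Submodule.span ℂ (Set.range w)) := by
      rw [h1]
      exact x.2
    obtain ⟨y, hy, hyx⟩ := h2
    have : y = x := Subtype.ext hyx
    exact this ▸ hy
  let B : Basis S ℂ F := Basis.mk hli hsp
  refine ⟨Fintype.card S, B.reindex (Fintype.equivFin S), ?_⟩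
  intro i j hij
  apply Subtype.ext
  rw [restr_apply, Basis.reindex_apply, Basis.reindex_apply, Basis.mk_apply, Basis.mk_apply]
  apply hg
  intro h
  apply hij
  exact (Fintype.equivFin S).symm.injective (Subtype.ext h)

theorem Zs_restr {μ : Prd V} {F : Submodule ℂ V} (hF : IsSubalgebra μ F) : ∀ (j : ℕ) (x : F),
    (x : V) ∈ Zs μ j → x ∈ Zs (restr μ F hF) j := by
  intro j
  induction j with
  | zero =>
    intro x hx
    exact (Submodule.mem_bot ℂ).2 (Subtype.ext ((Submodule.mem_bot ℂ).1 hx))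
  | succ j ih =>
    intro x hx y
    exact ih _ (hx y)

theorem dsum_apply (μ : Prd V) (ν : Prd W) (x y : V × W) :
    dsum μ ν x y = (μ x.1 y.1, ν x.2 y.2) := rfl

theorem Iso.symm {μ : Prd V} {ν : Prd W} (h : Iso μ ν) : Iso ν μ := by
  obtain ⟨f, hf⟩ := h
  refine ⟨f.symm, fun x y => ?_⟩
  rw [LinearEquiv.symm_apply_eq, hf, f.apply_symm_apply, f.apply_symm_apply]

theorem iso_of {μ : Prd V} (hc : ∀ x y, μ x y = μ y x) {Z : Submodule ℂ V} {e : V}
    (he : μ e e = e) (heZ : e ∉ Z) (hez : ∀ z ∈ Z, μ e z = 0)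
    (htop : Submodule.span ℂ {e} ⊔ Z = ⊤) {ν : Prd W} (φ : W →ₗ[ℂ] V)
    (hinj : Function.Injective φ) (hr : LinearMap.range φ = Z)
    (hφ : ∀ x y, φ (ν x y) = μ (φ x) (φ y)) : Iso μ (dsum ES1 ν) := by
  have hφZ : ∀ w, φ w ∈ Z := fun w => hr ▸ LinearMap.mem_range_self φ w
  let f : ℂ × W →ₗ[ℂ] V := (LinearMap.toSpanSingleton ℂ V e).coprod φ
  have hf : ∀ p : ℂ × W, f p = p.1 • e + φ p.2 := by
    intro p
    simp [f]
  have hfi : Function.Injective f := by
    rw [← LinearMap.ker_eq_bot, LinearMap.ker_eq_bot']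
    intro p hp
    rw [hf] at hp
    have h1 : p.1 = 0 := by
      by_contra hne
      apply heZ
      apply smul_mem_cancel hne
      rw [eq_neg_of_add_eq_zero_left hp]
      exact Submodule.neg_mem _ (hφZ _)
    rw [h1, zero_smul, zero_add] at hp
    have h2 : p.2 = 0 := hinj (by rw [hp, map_zero])
    exact Prod.ext h1 h2
  have hfs : Function.Surjective f := by
    intro v
    have hv : v ∈ Submodule.span ℂ {e} ⊔ Z := htop ▸ Submodule.mem_top
    obtain ⟨a1, ha1, z, hz, rfl⟩ := Submodule.mem_sup.1 hv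
    obtain ⟨α, rfl⟩ := Submodule.mem_span_singleton.1 ha1
    rw [← hr] at hz
    obtain ⟨w, rfl⟩ := hz
    exact ⟨(α, w), hf _⟩
  have hfb : Function.Bijective f := ⟨hfi, hfs⟩
  apply Iso.symm
  refine ⟨LinearEquiv.ofBijective f hfb, ?_⟩
  intro x y
  rw [LinearEquiv.ofBijective_apply, LinearEquiv.ofBijective_apply, LinearEquiv.ofBijective_apply,
    hf, hf, hf, dsum_apply, expand, he, hez _ (hφZ _), hc (φ x.2) e, hez _ (hφZ _), hφ]
  simp [ES1]

theorem exists_compl (A B : Submodule ℂ V) : ∃ C ≤ B, A ⊓ C = ⊥ ∧ A ⊔ C = A ⊔ B := by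
  obtain ⟨D, hD⟩ := Submodule.exists_isCompl (A ⊓ B)
  refine ⟨D ⊓ B, inf_le_right, ?_, ?_⟩
  · rw [← hD.inf_eq_bot]
    apply le_antisymm
    · exact le_inf (le_inf inf_le_left (inf_le_right.trans inf_le_right))
        (inf_le_right.trans inf_le_left)
    · exact le_inf (inf_le_left.trans inf_le_left)
        (le_inf inf_le_right (inf_le_left.trans inf_le_right))
  · apply le_antisymm (sup_le_sup_left inf_le_right _)
    refine sup_le le_sup_left ?_
    have h1 : B = (A ⊓ B) ⊔ D ⊓ B := by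
      rw [← sup_inf_assoc_of_le D (inf_le_right : A ⊓ B ≤ B), hD.sup_eq_top, top_inf_eq]
    conv_lhs => rw [h1]
    exact sup_le_sup_right inf_le_left _

theorem finrank_sq {μ : Prd V} [FiniteDimensional ℂ V] (hP : CondP μ) {n : ℕ}
    {b : Basis (Fin n) ℂ V} (hb : NatBasis μ b) :
    ∀ i, finrank ℂ (Submodule.map₂ μ (Zs μ (i + 1)) ⊤) ≤ i := by
  intro i
  induction i with
  | zero =>
    have : Submodule.map₂ μ (Zs μ (0 + 1)) ⊤ = ⊥ := by
      rw [eq_bot_iff, Submodule.map₂_le]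
      intro x hx y _
      exact hx y
    rw [this, finrank_bot]
  | succ i ih =>
    by_cases h : Zs μ (i + 1) = Zs μ (i + 2)
    · have e : i + 1 + 1 = i + 2 := rfl
      rw [e, ← h]
      omega
    · have hlt : Zs μ (i + 1) < Zs μ (i + 2) := lt_of_le_of_ne (Zs_le_succ μ _) h
      obtain ⟨x, hx, hx'⟩ := SetLike.exists_of_lt hlt
      rw [coord hb] at hx'
      push Not at hx'
      obtain ⟨l, hl, hl'⟩ := hx'
      have hl2 : b l ∈ Zs μ (i + 2) := (coord hb _ _).1 hx l hl
      have h1 := layer hP hb hl2 hl'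
      have h2 : Submodule.map₂ μ (Zs μ (i + 1 + 1)) ⊤ ≤
          Submodule.span ℂ {μ (b l) (b l)} ⊔ Submodule.map₂ μ (Zs μ (i + 1)) ⊤ := by
        rw [Submodule.map₂_le]
        intro y hy w _
        obtain ⟨a1, ha1, z, hz, rfl⟩ := Submodule.mem_sup.1 (h1 hy)
        obtain ⟨α, rfl⟩ := Submodule.mem_span_singleton.1 ha1
        rw [map_add, LinearMap.add_apply, map_smul, LinearMap.smul_apply, hb.left l w]
        refine Submodule.add_mem _ (Submodule.mem_sup_left (Submodule.smul_mem _ _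
          (Submodule.smul_mem _ _ (Submodule.mem_span_singleton_self _)))) ?_
        exact Submodule.mem_sup_right (Submodule.apply_mem_map₂ μ hz Submodule.mem_top)
      have h3 := Submodule.finrank_mono h2
      have h4 := Submodule.finrank_add_le_finrank_add_finrank
        (Submodule.span ℂ {μ (b l) (b l)}) (Submodule.map₂ μ (Zs μ (i + 1)) ⊤)
      have h5 : finrank ℂ (Submodule.span ℂ {μ (b l) (b l)}) ≤ 1 := by
        have := finrank_span_le_card (R := ℂ) ({μ (b l) (b l)} : Set V)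
        simpa using this
      omega

/-! ### The classification -/

theorem part_one (n : ℕ) (hn : 1 ≤ n) (μ : Prd V) (hfin : finrank ℂ V = n)
    (hE : IsEvolution μ) (hN : ¬ IsNilpotent μ) (hP : CondP μ) :
    Iso μ (dsum ES1 (Zero (n - 1))) ∨
    ∃ s, 2 ≤ s ∧ s ≤ n - 1 ∧ ∃ (U : Type) (_ : AddCommGroup U) (_ : Module ℂ U) (ν : Prd U),
      ZN s ν ∧ Iso μ (dsum ES1 (dsum ν (Zero (n - s - 1)))) := by
  classical
  obtain ⟨m, b, hb⟩ := hE
  have hc := hb.comm
  have : FiniteDimensional ℂ V := Module.Finite.of_basis b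
  have hstab : ∃ t, Zs μ t = Zs μ (t + 1) := by
    obtain ⟨t, ht⟩ := monotone_stabilizes_iff_noetherian.2 (inferInstance : IsNoetherian ℂ V)
      ⟨Zs μ, Zs_mono μ⟩
    exact ⟨t, ht (t + 1) (Nat.le_succ t)⟩
  obtain ⟨t, ht, hmin⟩ : ∃ t, Zs μ t = Zs μ (t + 1) ∧ ∀ j < t, Zs μ j ≠ Zs μ (j + 1) :=
    ⟨Nat.find hstab, Nat.find_spec hstab, fun j hj => Nat.find_min hstab hj⟩
  have htop : Zs μ t ≠ ⊤ := fun h => hN (nilp_of_Zs hc h)
  obtain ⟨e, he, heZ, hez, htop'⟩ := main2 hP hb ht htop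
  have he0 : e ≠ 0 := by
    rintro rfl
    exact heZ (Submodule.zero_mem _)
  have hinf : Submodule.span ℂ {e} ⊓ Zs μ t = ⊥ := by
    rw [eq_bot_iff]
    rintro x ⟨hx1, hx2⟩
    obtain ⟨α, rfl⟩ := Submodule.mem_span_singleton.1 hx1
    by_cases hα : α = 0
    · rw [hα, zero_smul]
      exact Submodule.zero_mem _
    · exact absurd (smul_mem_cancel hα hx2) heZ
  have hfZ : finrank ℂ (Zs μ t) = n - 1 := by
    have h1 := Submodule.finrank_sup_add_finrank_inf_eq (Submodule.span ℂ {e}) (Zs μ t)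
    rw [htop', hinf, finrank_top, finrank_bot, finrank_span_singleton he0, hfin] at h1
    omega
  rcases Nat.lt_or_ge t 2 with ht2 | ht2
  · left
    let B : Basis (Fin (n - 1)) ℂ (Zs μ t) := finBasisOfFinrankEq ℂ _ hfZ
    refine iso_of hc he heZ hez htop' ((Zs μ t).subtype ∘ₗ B.equivFun.symm.toLinearMap) ?_ ?_ ?_
    · exact (Submodule.injective_subtype _).comp B.equivFun.symm.injective
    · rw [LinearMap.range_comp, LinearEquiv.range, Submodule.map_top, Submodule.range_subtype]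
    · intro x y
      have h1 : ∀ z ∈ Zs μ t, ∀ y, μ z y = 0 := by
        intro z hz y
        have : z ∈ Zs μ (0 + 1) := Zs_mono μ (by omega) hz
        exact (Submodule.mem_bot ℂ).1 (this y)
      have h2 : ((Zs μ t).subtype ∘ₗ B.equivFun.symm.toLinearMap) x ∈ Zs μ t :=
        Submodule.coe_mem _
      rw [h1 _ h2]
      simp [Zero]
  · right
    obtain ⟨k, rfl⟩ : ∃ k, t = k + 2 := ⟨t - 2, by omega⟩
    have hlt : Zs μ (k + 1) < Zs μ (k + 2) := lt_of_le_of_ne (Zs_le_succ μ _) (hmin _ (by omega))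
    obtain ⟨x0, hx0, hx0'⟩ := SetLike.exists_of_lt hlt
    set N2 := Submodule.map₂ μ (Zs μ (k + 2)) ⊤ with hN2
    set Et := Submodule.span ℂ {x0} ⊔ N2 with hEt
    have hN2Z : N2 ≤ Zs μ (k + 1) := by
      rw [hN2, Submodule.map₂_le]
      intro x hx y _
      exact hx y
    have hEtZ : Et ≤ Zs μ (k + 2) := by
      refine sup_le ?_ (hN2Z.trans (Zs_le_succ μ _))
      rw [Submodule.span_le, Set.singleton_subset_iff]
      exact hx0
    have hsub : IsSubalgebra μ Et := fun x hx y _ =>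
      Submodule.mem_sup_right (Submodule.apply_mem_map₂ μ (hEtZ hx) Submodule.mem_top)
    let p : ℕ → V := fun j => Nat.rec x0 (fun _ x => μ x x) j
    have hp0 : p 0 = x0 := rfl
    have hps : ∀ j, p (j + 1) = μ (p j) (p j) := fun j => rfl
    have hp : ∀ j, j ≤ k + 1 → p j ∈ Zs μ (k + 2 - j) ∧ p j ∉ Zs μ (k + 1 - j) := by
      intro j
      induction j with
      | zero => intro _; exact ⟨hx0, hx0'⟩
      | succ j ih =>
        intro hj
        obtain ⟨h1, h2⟩ := ih (by omega)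
        rw [hps]
        constructor
        · have e : k + 2 - j = (k + 2 - (j + 1)) + 1 := by omega
          rw [e] at h1
          exact h1 _
        · have e : k + 1 - j = (k + 1 - (j + 1)) + 1 := by omega
          rw [e] at h2
          exact sq_not_mem hP hc h2
    have hpEt : ∀ j, p j ∈ Et := by
      intro j
      induction j with
      | zero => exact Submodule.mem_sup_left (Submodule.mem_span_singleton_self _)
      | succ j ih =>
        rw [hps]
        exact hsub _ ih _ ih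
    have hcover : ∀ i, i ≤ k + 1 → Zs μ (i + 1) ≤ Et ⊔ Zs μ 1 := by
      intro i
      induction i with
      | zero => intro _; exact le_sup_right
      | succ i ih =>
        intro hi
        obtain ⟨h1, h2⟩ := hp (k - i) (by omega)
        have e1 : k + 2 - (k - i) = i + 2 := by omega
        have e2 : k + 1 - (k - i) = i + 1 := by omega
        rw [e1] at h1
        rw [e2] at h2
        refine (layer hP hb h1 h2).trans (sup_le ?_ (ih (by omega)))
        rw [Submodule.span_le, Set.singleton_subset_iff]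
        exact Submodule.mem_sup_left (hpEt _)
    have hZ1 : Zs μ 1 ≤ Zs μ (k + 2) := Zs_mono μ (by omega)
    have hEtZ1 : Et ⊔ Zs μ 1 = Zs μ (k + 2) :=
      le_antisymm (sup_le hEtZ hZ1) (hcover (k + 1) le_rfl)
    obtain ⟨C, hC1, hCinf, hCsup⟩ := exists_compl Et (Zs μ 1)
    rw [hEtZ1] at hCsup
    have hx00 : x0 ≠ 0 := by
      rintro rfl
      exact hx0' (Submodule.zero_mem _)
    have hsle : finrank ℂ Et ≤ k + 2 := by
      have h1 := Submodule.finrank_add_le_finrank_add_finrank (Submodule.span ℂ {x0}) N2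
      have h2 := finrank_sq hP hb (k + 1)
      rw [finrank_span_singleton hx00] at h1
      have h3 : finrank ℂ N2 ≤ k + 1 := h2
      have h4 : finrank ℂ Et ≤ 1 + finrank ℂ N2 := h1
      omega
    have hsn : finrank ℂ Et ≤ n - 1 := by
      rw [← hfZ]
      exact Submodule.finrank_mono hEtZ
    have hfC : finrank ℂ C = n - finrank ℂ Et - 1 := by
      have h1 := Submodule.finrank_sup_add_finrank_inf_eq Et C
      rw [hCsup, hCinf, finrank_bot, hfZ] at h1
      omega
    have hspos : 1 ≤ finrank ℂ Et := by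
      have h1 := Submodule.finrank_mono (le_sup_left : Submodule.span ℂ {x0} ≤ Et)
      rwa [finrank_span_singleton hx00] at h1
    set ν := restr μ Et hsub with hν
    have hνc : ∀ x y, ν x y = ν y x := fun x y => Subtype.ext (hc _ _)
    have hνnil : IsNilpotent ν := by
      apply nilp_of_Zs (t := k + 2) hνc
      rw [eq_top_iff]
      intro x _
      exact Zs_restr hsub _ x (hEtZ x.2)
    have hpow : ∀ j, (⟨p j, hpEt j⟩ : Et) ∈ power ν (2 ^ j) := by
      intro j
      induction j with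
      | zero =>
        rw [pow_zero, power]
        exact Submodule.mem_top
      | succ j ih =>
        have h1 := mul_mem_power Nat.one_le_two_pow Nat.one_le_two_pow ih ih
        have e : 2 ^ j + 2 ^ j = 2 ^ (j + 1) := by ring
        rw [e] at h1
        exact h1
    have hidx : 2 ^ (k + 1) < index ν := by
      apply lt_index hνnil (hpow (k + 1))
      intro h
      apply (hp (k + 1) le_rfl).2
      have h0 : p (k + 1) = 0 := congrArg Subtype.val h
      rw [h0]
      exact Submodule.zero_mem _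
    have hs2 : k + 2 ≤ finrank ℂ Et := by
      have h1 := index_le hνc (Zs_finrank_top hνnil) hspos
      have h2 : 2 ^ (k + 1) ≤ 2 ^ (finrank ℂ Et - 1) := by omega
      have h3 := (Nat.pow_le_pow_iff_right (by norm_num : 1 < 2)).1 h2
      omega
    refine ⟨finrank ℂ Et, by omega, hsn, Et, inferInstance, inferInstance, ν,
      ⟨rfl, restr_evolution hP hsub, hνnil, ?_⟩, ?_⟩
    · intro U _ _ ν' hU hE' hN'
      obtain ⟨m', b', hb'⟩ := hE'
      have : FiniteDimensional ℂ U := Module.Finite.of_basis b'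
      have h1 := index_le hb'.comm (Zs_finrank_top hN') (by omega)
      have h2 : 2 ^ (finrank ℂ U - 1) ≤ 2 ^ (k + 1) := Nat.pow_le_pow_right (by norm_num) (by omega)
      omega
    · let B : Basis (Fin (n - finrank ℂ Et - 1)) ℂ C := finBasisOfFinrankEq ℂ _ hfC
      let ψ : (Fin (n - finrank ℂ Et - 1) → ℂ) →ₗ[ℂ] V := C.subtype ∘ₗ B.equivFun.symm.toLinearMap
      have hψ : ∀ c, ψ c ∈ C := fun c => Submodule.coe_mem _
      have hψi : Function.Injective ψ :=
        (Submodule.injective_subtype _).comp B.equivFun.symm.injective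
      have hψr : LinearMap.range ψ = C := by
        rw [LinearMap.range_comp, LinearEquiv.range, Submodule.map_top, Submodule.range_subtype]
      have h1 : ∀ z ∈ C, ∀ y, μ z y = 0 := by
        intro z hz y
        exact (Submodule.mem_bot ℂ).1 (hC1 hz y)
      refine iso_of hc he heZ hez htop' (Et.subtype.coprod ψ) ?_ ?_ ?_
      · rw [← LinearMap.ker_eq_bot, LinearMap.ker_eq_bot']
        intro q hq
        rw [LinearMap.coprod_apply, Submodule.subtype_apply] at hq
        have h2 : (q.1 : V) ∈ Et ⊓ C := by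
          refine ⟨q.1.2, ?_⟩
          rw [eq_neg_of_add_eq_zero_left hq]
          exact Submodule.neg_mem _ (hψ _)
        rw [hCinf] at h2
        have h3 : (q.1 : V) = 0 := (Submodule.mem_bot ℂ).1 h2
        rw [h3, zero_add] at hq
        have h4 : q.2 = 0 := hψi (by rw [hq, map_zero])
        exact Prod.ext (Subtype.ext h3) h4
      · rw [LinearMap.range_coprod, Submodule.range_subtype, hψr, hCsup]
      · intro x y
        rw [LinearMap.coprod_apply, LinearMap.coprod_apply, LinearMap.coprod_apply, dsum_apply]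
        simp only [Submodule.subtype_apply, Zero, LinearMap.zero_apply, map_zero, add_zero]
        rw [map_add, map_add, LinearMap.add_apply, LinearMap.add_apply, h1 _ (hψ _),
          h1 _ (hψ _), hc x.1 (ψ y.2), h1 _ (hψ _), add_zero, add_zero, add_zero]
        rfl

/-! ### The algebra `EN_s` -/

/-- `EN_s`: `e_i e_i = e_{i+1}`, `e_s e_s = 0` -/
def en (s : ℕ) : Prd (Fin s → ℂ) :=
  LinearMap.mk₂ ℂ (fun x y k => if k.val = 0 then 0 else
      x ⟨k.val - 1, lt_of_le_of_lt (Nat.sub_le _ _) k.2⟩ *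
      y ⟨k.val - 1, lt_of_le_of_lt (Nat.sub_le _ _) k.2⟩)
    (by intro x y z; ext k; simp only [Pi.add_apply]; split_ifs <;> ring)
    (by intro c x y; ext k; simp only [Pi.smul_apply, smul_eq_mul]; split_ifs <;> ring)
    (by intro x y z; ext k; simp only [Pi.add_apply]; split_ifs <;> ring)
    (by intro c x y; ext k; simp only [Pi.smul_apply, smul_eq_mul]; split_ifs <;> ring)

theorem en_apply (s : ℕ) (x y : Fin s → ℂ) (k : Fin s) : en s x y k = if k.val = 0 then 0 else
      x ⟨k.val - 1, lt_of_le_of_lt (Nat.sub_le _ _) k.2⟩ *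
      y ⟨k.val - 1, lt_of_le_of_lt (Nat.sub_le _ _) k.2⟩ := rfl

theorem en_evolution (s : ℕ) : IsEvolution (en s) := by
  refine ⟨s, Pi.basisFun ℂ (Fin s), ?_⟩
  intro i j hij
  ext k
  rw [en_apply, Pi.basisFun_apply, Pi.basisFun_apply]
  split_ifs with h
  · rfl
  · by_cases h1 : (⟨k.val - 1, lt_of_le_of_lt (Nat.sub_le _ _) k.2⟩ : Fin s) = i
    · rw [h1, Pi.single_eq_of_ne hij, mul_zero]
      rfl
    · rw [Pi.single_eq_of_ne h1, zero_mul]
      rfl

theorem en_comm (s : ℕ) (x y : Fin s → ℂ) : en s x y = en s y x := by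
  ext k
  rw [en_apply, en_apply]
  split_ifs
  · rfl
  · rw [mul_comm]

theorem en_Zs (s : ℕ) : ∀ (j : ℕ) (x : Fin s → ℂ), (∀ i : Fin s, i.val + j < s → x i = 0) →
    x ∈ Zs (en s) j := by
  intro j
  induction j with
  | zero =>
    intro x hx
    apply (Submodule.mem_bot ℂ).2
    ext i
    exact hx i i.2
  | succ j ih =>
    intro x hx y
    apply ih
    intro i hi
    rw [en_apply]
    split_ifs with h
    · rfl
    · rw [hx ⟨i.val - 1, _⟩ (by simp only; omega), zero_mul]

theorem en_nilpotent (s : ℕ) : IsNilpotent (en s) := by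
  apply nilp_of_Zs (t := s) (en_comm s)
  rw [eq_top_iff]
  intro x _
  apply en_Zs
  intro i hi
  omega

theorem en_power (s : ℕ) : ∀ (j : ℕ) (hj : j < s),
    (Pi.single ⟨j, hj⟩ 1 : Fin s → ℂ) ∈ power (en s) (2 ^ j) := by
  intro j
  induction j with
  | zero =>
    intro hj
    rw [pow_zero, power]
    exact Submodule.mem_top
  | succ j ih =>
    intro hj
    have h1 := mul_mem_power Nat.one_le_two_pow Nat.one_le_two_pow (ih (by omega)) (ih (by omega))
    have e : 2 ^ j + 2 ^ j = 2 ^ (j + 1) := by ring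
    rw [e] at h1
    convert h1 using 1
    ext k
    rw [en_apply]
    split_ifs with h
    · rw [Pi.single_eq_of_ne]
      rintro rfl
      simp at h
    · by_cases hk : k.val = j + 1
      · have h2 : k = ⟨j + 1, hj⟩ := Fin.ext hk
        have h3 : (⟨k.val - 1, lt_of_le_of_lt (Nat.sub_le _ _) k.2⟩ : Fin s) = ⟨j, by omega⟩ :=
          Fin.ext (by simp only; omega)
        have h5 : (Pi.single ⟨j + 1, hj⟩ 1 : Fin s → ℂ) k = 1 := by rw [h2, Pi.single_eq_same]
        rw [h5, h3, Pi.single_eq_same, mul_one]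
      · have h2 : k ≠ ⟨j + 1, hj⟩ := fun h => hk (congrArg Fin.val h)
        have h3 : (⟨k.val - 1, lt_of_le_of_lt (Nat.sub_le _ _) k.2⟩ : Fin s) ≠ ⟨j, by omega⟩ := by
          intro h'
          have := congrArg Fin.val h'
          simp only at this
          omega
        rw [Pi.single_eq_of_ne h2, Pi.single_eq_of_ne h3, zero_mul]

theorem en_index {s : ℕ} (hs : 1 ≤ s) : 2 ^ (s - 1) < index (en s) := by
  apply lt_index (en_nilpotent s) (en_power s (s - 1) (by omega))
  intro h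
  have := congrFun h ⟨s - 1, by omega⟩
  rw [Pi.single_eq_same] at this
  exact one_ne_zero this

/-- every element annihilating the algebra is a combination of products -/
def AnnSq (ν : Prd V) : Prop := ∀ w, (∀ y, ν w y = 0) → w ∈ Submodule.map₂ ν ⊤ ⊤

theorem annSq_of_ZN {ν : Prd V} {s : ℕ} (hs : 2 ≤ s) (h : ZN s ν) : AnnSq ν := by
  classical
  obtain ⟨hfin, ⟨m, b, hb⟩, hn, hmax⟩ := h
  have : FiniteDimensional ℂ V := Module.Finite.of_basis b
  have hidx : 2 ^ (s - 1) < index ν := by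
    have h1 := hmax (Fin s → ℂ) (en s) (by simp) (en_evolution s) (en_nilpotent s)
    have h2 := en_index (s := s) (by omega)
    omega
  obtain ⟨t, ht, hmin⟩ : ∃ t, Zs ν t = ⊤ ∧ ∀ j < t, Zs ν j ≠ ⊤ :=
    ⟨Nat.find (nilp_Zs hn), Nat.find_spec (nilp_Zs hn), fun j hj => Nat.find_min (nilp_Zs hn) hj⟩
  have ht1 : 1 ≤ t := by
    by_contra h0
    have h0' : t = 0 := by omega
    rw [h0'] at ht
    have h1 : finrank ℂ V = 0 := by
      rw [← finrank_top ℂ V, ← ht]
      exact finrank_bot ℂ V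
    omega
  have hts : s ≤ t := by
    have h1 := index_le hb.comm ht ht1
    have h2 : 2 ^ (s - 1) ≤ 2 ^ (t - 1) := by omega
    have h3 := (Nat.pow_le_pow_iff_right (by norm_num : 1 < 2)).1 h2
    omega
  have hgrow : ∀ j, j + 1 ≤ t → finrank ℂ (Zs ν 1) + j ≤ finrank ℂ (Zs ν (j + 1)) := by
    intro j
    induction j with
    | zero => intro _; exact le_rfl
    | succ j ih =>
      intro hj
      have h1 := ih (by omega)
      have h2 := finrank_Zs_lt (Zs_strict ht (hmin (j + 1) (by omega)))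
      omega
  have h1 : finrank ℂ (Zs ν 1) ≤ 1 := by
    have h2 := hgrow (t - 1) (by omega)
    rw [Nat.sub_add_cancel ht1, ht, finrank_top, hfin] at h2
    omega
  have hlt : Zs ν 1 < Zs ν 2 :=
    lt_of_le_of_ne (Zs_le_succ ν 1) (Zs_strict ht (hmin 1 (by omega)))
  obtain ⟨x, hx, hx'⟩ := SetLike.exists_of_lt hlt
  obtain ⟨y, hy⟩ : ∃ y, ν x y ≠ 0 := by
    by_contra hcon
    push Not at hcon
    apply hx'
    intro y
    rw [hcon y]
    exact Submodule.zero_mem _
  have hxy : ν x y ∈ Zs ν 1 := hx y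
  intro w hw
  have hw1 : w ∈ Zs ν 1 := by
    intro y
    rw [hw y]
    exact Submodule.zero_mem _
  have hspan : Submodule.span ℂ {ν x y} = Zs ν 1 := by
    apply Submodule.eq_of_le_of_finrank_le
    · rw [Submodule.span_le, Set.singleton_subset_iff]
      exact hxy
    · rw [finrank_span_singleton hy]
      exact h1
  rw [← hspan] at hw1
  obtain ⟨c, rfl⟩ := Submodule.mem_span_singleton.1 hw1
  exact Submodule.smul_mem _ _ (Submodule.apply_mem_map₂ ν Submodule.mem_top Submodule.mem_top)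

theorem no_idem {ν : Prd V} (hn : IsNilpotent ν) (w : V) (hw : ν w w = w) : w = 0 := by
  have h1 : ∀ k, 1 ≤ k → w ∈ power ν k := by
    intro k hk
    induction k, hk using Nat.le_induction with
    | base =>
      rw [power]
      exact Submodule.mem_top
    | succ k hk ih =>
      have h2 : w ∈ power ν 1 := by
        rw [power]
        exact Submodule.mem_top
      have h3 := mul_mem_power hk le_rfl ih h2
      rwa [hw] at h3
  obtain ⟨m, hm, hbot⟩ := hn
  have := h1 m hm
  rw [hbot] at this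
  exact (Submodule.mem_bot ℂ).1 this

theorem zero_apply' (m : ℕ) (x y : Fin m → ℂ) : Zero m x y = 0 := rfl

theorem cancel_ES {σ : Prd V} {σ' : Prd W} (hσ' : ∀ w, σ' w w = w → w = 0) (h : Iso (dsum ES1 σ) (dsum ES1 σ')) : Iso σ σ' := by
  obtain ⟨f, hf⟩ := h
  have h1 : f (1, 0) = (1, 0) := by
    have h2 := hf (1, 0) (1, 0)
    rw [dsum_apply, dsum_apply] at h2
    simp only [ES1, LinearMap.mul_apply', mul_one, map_zero] at h2
    have h3 : (f (1, 0)).2 = 0 := hσ' _ (congrArg Prod.snd h2).symm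
    have h4 : (f (1, 0)).1 = (f (1, 0)).1 * (f (1, 0)).1 := congrArg Prod.fst h2
    have h5 : (f (1, 0)).1 ≠ 0 := by
      intro h0
      have h6 : f (1, 0) = f 0 := by
        rw [map_zero]
        exact Prod.ext h0 h3
      have h7 := congrArg Prod.fst (f.injective h6)
      exact one_ne_zero h7
    have h8 : (f (1, 0)).1 = 1 := by
      have h9 : (f (1, 0)).1 * ((f (1, 0)).1 - 1) = 0 := by
        rw [mul_sub, mul_one, ← h4, sub_self]
      exact sub_eq_zero.1 ((mul_eq_zero.1 h9).resolve_left h5)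
    exact Prod.ext h8 h3
  have h1' : f.symm (1, 0) = (1, 0) := by
    rw [LinearEquiv.symm_apply_eq, h1]
  have h2 : ∀ w, (f (0, w)).1 = 0 := by
    intro w
    have h3 := hf (1, 0) (0, w)
    rw [dsum_apply, dsum_apply, h1] at h3
    simp only [ES1, LinearMap.mul_apply', map_zero, LinearMap.zero_apply, one_mul] at h3
    have h4 : f ((0, 0) : ℂ × V) = 0 := map_zero f
    rw [h4] at h3
    exact (congrArg Prod.fst h3).symm
  have hf' : ∀ x y, f.symm (dsum ES1 σ' x y) = dsum ES1 σ (f.symm x) (f.symm y) := by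
    intro x y
    rw [LinearEquiv.symm_apply_eq, hf, f.apply_symm_apply, f.apply_symm_apply]
  have h2' : ∀ w, (f.symm (0, w)).1 = 0 := by
    intro w
    have h3 := hf' (1, 0) (0, w)
    rw [dsum_apply, dsum_apply, h1'] at h3
    simp only [ES1, LinearMap.mul_apply', map_zero, LinearMap.zero_apply, one_mul] at h3
    have h4 : f.symm ((0, 0) : ℂ × W) = 0 := map_zero f.symm
    rw [h4] at h3
    exact (congrArg Prod.fst h3).symm
  let g : V →ₗ[ℂ] W := LinearMap.snd ℂ ℂ W ∘ₗ f.toLinearMap ∘ₗ LinearMap.inr ℂ ℂ V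
  let g' : W →ₗ[ℂ] V := LinearMap.snd ℂ ℂ V ∘ₗ f.symm.toLinearMap ∘ₗ LinearMap.inr ℂ ℂ W
  have hg : ∀ w, f (0, w) = (0, g w) := fun w => Prod.ext (h2 w) rfl
  have hg' : ∀ w, f.symm (0, w) = (0, g' w) := fun w => Prod.ext (h2' w) rfl
  have e1 : ∀ w, g (g' w) = w := by
    intro w
    have h5 := hg (g' w)
    rw [← hg', f.apply_symm_apply] at h5
    exact (congrArg Prod.snd h5).symm
  have e2 : ∀ w, g' (g w) = w := by
    intro w
    have h5 := hg' (g w)
    rw [← hg, f.symm_apply_apply] at h5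
    exact (congrArg Prod.snd h5).symm
  refine ⟨LinearEquiv.ofLinearMap g g' (LinearMap.ext e1) (LinearMap.ext e2), fun x y => ?_⟩
  have h6 := hf (0, x) (0, y)
  rw [dsum_apply, dsum_apply, hg, hg] at h6
  simp only [map_zero] at h6
  rw [hg] at h6
  exact congrArg Prod.snd h6

theorem cancel_zero_inj {ν : Prd V} {ν' : Prd W} {m m' : ℕ} (hA : AnnSq ν)
    (f : (V × (Fin m → ℂ)) ≃ₗ[ℂ] (W × (Fin m' → ℂ)))
    (hf : ∀ x y, f (dsum ν (Zero m) x y) = dsum ν' (Zero m') (f x) (f y)) :
    (∀ x y, (f (ν x y, 0)).1 = ν' (f (x, 0)).1 (f (y, 0)).1) ∧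
    ∀ w, (f (w, 0)).1 = 0 → w = 0 := by
  have key : ∀ x y, f (ν x y, 0) = (ν' (f (x, 0)).1 (f (y, 0)).1, 0) := by
    intro x y
    have h1 := hf (x, 0) (y, 0)
    rw [dsum_apply, dsum_apply] at h1
    simpa only [Zero, LinearMap.zero_apply] using h1
  refine ⟨fun x y => by rw [key], fun w hw => ?_⟩
  have h1 : ∀ y, ν w y = 0 := by
    intro y
    have h2 := key w y
    rw [hw, map_zero, LinearMap.zero_apply] at h2
    have h3 : f (ν w y, 0) = f 0 := by
      rw [h2, map_zero]
      rfl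
    exact congrArg Prod.fst (f.injective h3)
  have h2 := hA w h1
  have h3 : ∀ v ∈ Submodule.map₂ ν ⊤ ⊤, (f (v, 0)).2 = 0 := by
    let g : V →ₗ[ℂ] (Fin m' → ℂ) :=
      LinearMap.snd ℂ W (Fin m' → ℂ) ∘ₗ f.toLinearMap ∘ₗ LinearMap.inl ℂ V (Fin m → ℂ)
    have h4 : Submodule.map₂ ν ⊤ ⊤ ≤ LinearMap.ker g := by
      rw [Submodule.map₂_le]
      intro x _ y _
      have : g (ν x y) = (f (ν x y, 0)).2 := rfl
      rw [LinearMap.mem_ker, this, key]
    intro v hv
    exact LinearMap.mem_ker.1 (h4 hv)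
  have h4 : f (w, 0) = f 0 := by
    rw [map_zero]
    exact Prod.ext hw (h3 w h2)
  exact congrArg Prod.fst (f.injective h4)

theorem cancel_zero {ν : Prd V} {ν' : Prd W} [FiniteDimensional ℂ V] [FiniteDimensional ℂ W]
    {m m' : ℕ} (hA : AnnSq ν) (hA' : AnnSq ν')
    (h : Iso (dsum ν (Zero m)) (dsum ν' (Zero m'))) :
    finrank ℂ V = finrank ℂ W ∧ Iso ν ν' := by
  have h' := h.symm
  obtain ⟨f, hf⟩ := h
  obtain ⟨f', hf'⟩ := h'
  obtain ⟨k1, k2⟩ := cancel_zero_inj hA f hf
  obtain ⟨-, k2'⟩ := cancel_zero_inj hA' f' hf'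
  let g : V →ₗ[ℂ] W :=
    LinearMap.fst ℂ W (Fin m' → ℂ) ∘ₗ f.toLinearMap ∘ₗ LinearMap.inl ℂ V (Fin m → ℂ)
  let g' : W →ₗ[ℂ] V :=
    LinearMap.fst ℂ V (Fin m → ℂ) ∘ₗ f'.toLinearMap ∘ₗ LinearMap.inl ℂ W (Fin m' → ℂ)
  have hg : Function.Injective g := by
    rw [← LinearMap.ker_eq_bot, LinearMap.ker_eq_bot']
    exact k2
  have hg' : Function.Injective g' := by
    rw [← LinearMap.ker_eq_bot, LinearMap.ker_eq_bot']
    exact k2'
  have hfin : finrank ℂ V = finrank ℂ W :=
    le_antisymm (LinearMap.finrank_le_finrank_of_injective hg)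
      (LinearMap.finrank_le_finrank_of_injective hg')
  refine ⟨hfin, LinearEquiv.ofInjectiveOfFinrankEq g hg hfin, fun x y => ?_⟩
  exact k1 x y

theorem part_two {ν : Prd V} {s m m' : ℕ} (hs : 2 ≤ s) (h : ZN s ν) :
    ¬ Iso (dsum ES1 (Zero m)) (dsum ES1 (dsum ν (Zero m'))) := by
  intro hiso
  have h1 : Iso (Zero m) (dsum ν (Zero m')) := by
    apply cancel_ES _ hiso
    intro w hw
    rw [dsum_apply] at hw
    have h2 : ν w.1 w.1 = w.1 := congrArg Prod.fst hw
    have h3 : Zero m' w.2 w.2 = w.2 := congrArg Prod.snd hw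
    rw [zero_apply'] at h3
    exact Prod.ext (no_idem h.2.2.1 _ h2) h3.symm
  obtain ⟨f, hf⟩ := h1.symm
  have h2 : ∀ x y, ν x y = 0 := by
    intro x y
    have h3 := hf (x, 0) (y, 0)
    rw [zero_apply', dsum_apply] at h3
    have h4 := f.injective (h3.trans (map_zero f).symm)
    exact congrArg Prod.fst h4
  have h3 : power ν 2 = ⊥ := by
    rw [eq_bot_iff]
    refine power_le le_rfl fun i j _ _ _ x _ y _ => ?_
    rw [h2]
    exact Submodule.zero_mem _
  have h4 : index ν ≤ 2 := Nat.sInf_le ⟨by omega, h3⟩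
  have h5 := h.2.2.2 (Fin s → ℂ) (en s) (by simp) (en_evolution s) (en_nilpotent s)
  have h6 := en_index (s := s) (by omega)
  have h7 : 2 ^ 1 ≤ 2 ^ (s - 1) := Nat.pow_le_pow_right (by norm_num) (by omega)
  omega

theorem part_three {ν : Prd V} {ν' : Prd W} {s s' m m' : ℕ} (hs : 2 ≤ s) (hs' : 2 ≤ s')
    (h : ZN s ν) (h' : ZN s' ν')
    (hiso : Iso (dsum ES1 (dsum ν (Zero m))) (dsum ES1 (dsum ν' (Zero m')))) :
    s = s' ∧ Iso ν ν' := by
  have aux : ∀ {U : Type} [AddCommGroup U] [Module ℂ U] {ρ : Prd U} {r : ℕ} {l : ℕ}, ZN r ρ →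
      ∀ w, dsum ρ (Zero l) w w = w → w = 0 := by
    intro U _ _ ρ r l hρ w hw
    rw [dsum_apply] at hw
    have h2 : ρ w.1 w.1 = w.1 := congrArg Prod.fst hw
    have h3 : Zero l w.2 w.2 = w.2 := congrArg Prod.snd hw
    rw [zero_apply'] at h3
    exact Prod.ext (no_idem hρ.2.2.1 _ h2) h3.symm
  have h1 := cancel_ES (aux h') hiso
  obtain ⟨n, b, -⟩ := h.2.1
  obtain ⟨n', b', -⟩ := h'.2.1
  have : FiniteDimensional ℂ V := Module.Finite.of_basis b
  have : FiniteDimensional ℂ W := Module.Finite.of_basis b'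
  obtain ⟨h2, h3⟩ := cancel_zero (annSq_of_ZN hs h) (annSq_of_ZN hs' h') h1
  exact ⟨by rw [← h.1, ← h'.1, h2], h3⟩

/-- **Classification.** (1) Every `n`-dimensional non-nilpotent complex evolution algebra with
condition `P` is isomorphic to `ES_1 ⊕ ℂ^{n-1}` or to `ES_1 ⊕ Ẽ ⊕ ℂ^{n-s-1}` for some
`2 ≤ s ≤ n-1` and `Ẽ ∈ ZN^s`.  (2), (3) These algebras are pairwise non-isomorphic (with `Ẽ`
taken up to isomorphism). -/
theorem result :
    (∀ (n : ℕ), 1 ≤ n → ∀ (V : Type) [AddCommGroup V] [Module ℂ V] (μ : Prd V),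
      finrank ℂ V = n → IsEvolution μ → ¬ IsNilpotent μ → CondP μ →
      Iso μ (dsum ES1 (Zero (n - 1))) ∨
      ∃ s, 2 ≤ s ∧ s ≤ n - 1 ∧ ∃ (U : Type) (_ : AddCommGroup U) (_ : Module ℂ U) (ν : Prd U),
        ZN s ν ∧ Iso μ (dsum ES1 (dsum ν (Zero (n - s - 1))))) ∧
    (∀ (n s : ℕ), 2 ≤ s → s ≤ n - 1 → ∀ (U : Type) [AddCommGroup U] [Module ℂ U] (ν : Prd U),
      ZN s ν → ¬ Iso (dsum ES1 (Zero (n - 1))) (dsum ES1 (dsum ν (Zero (n - s - 1))))) ∧
    (∀ (n s s' : ℕ), 2 ≤ s → s ≤ n - 1 → 2 ≤ s' → s' ≤ n - 1 →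
      ∀ (U U' : Type) [AddCommGroup U] [Module ℂ U] [AddCommGroup U'] [Module ℂ U']
        (ν : Prd U) (ν' : Prd U'), ZN s ν → ZN s' ν' →
      Iso (dsum ES1 (dsum ν (Zero (n - s - 1)))) (dsum ES1 (dsum ν' (Zero (n - s' - 1)))) →
      s = s' ∧ Iso ν ν') := by
  refine ⟨?_, ?_, ?_⟩
  · intro n hn V _ _ μ hfin hE hN hP
    exact part_one n hn μ hfin hE hN hP
  · intro n s hs _ U _ _ ν h
    exact part_two hs h
  · intro n s s' hs _ hs' _ U U' _ _ _ _ ν ν' h h' hiso
    exact part_three hs hs' h h' hiso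

end Pool.Agent.Results.MP_fa30b9_al.NonNilpotentClassification
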